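import Pool.Agent.Run7.h220.ZCDefs

/-!
# Curves with an action of `(ℤ/2)^r`: definitions
-/

set_option autoImplicit false

open CategoryTheory CategoryTheory.Limits AlgebraicGeometry

universe u

namespace Pool.Agent.Run7.h780.VQ

open Run7.h220.ZC

variable {k : Type u} [Field k]

/-- The character `g ↦ ∏_{i ∈ T} g_i` of the group `{1, -1}^r`; all its characters are of this form. -/
def chi {r : ℕ} (T : Finset (Fin r)) (g : Fin r → ℤˣ) : ℤˣ := ∏ i ∈ T, g i

/-- The divisor `∑ g D`, the sum over the elements `g` of the kernel of the character `χ_T`: it is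
the pull-back to `C` of the image of `D` on the quotient of `C` by the kernel of `χ_T`. -/
noncomputable def norm {r : ℕ} {C : Over (Spec (.of k))} (ρ : (Fin r → ℤˣ) →* End C)
    (T : Finset (Fin r)) (D : Pt C →₀ ℤ) : Pt C →₀ ℤ :=
  ∑ g with chi T g = 1, D.mapDomain fun x => x ≫ (ρ g : C ⟶ C)

/-- For every divisor `D` on `C` of degree at least `γ` there is an effective divisor `E` such that
the pull-backs of the images of `D` and of `E` on the quotient of `C` by the kernel of `χ_T` are
linearly equivalent. -/
def Effective {r : ℕ} {C : Over (Spec (.of k))} [Curve C] (ρ : (Fin r → ℤˣ) →* End C)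
    (T : Finset (Fin r)) (γ : ℕ) : Prop :=
  ∀ D : Pt C →₀ ℤ, (γ : ℤ) ≤ D.sum (fun _ n => n) →
    ∃ E : Pt C →₀ ℤ, (∀ x, 0 ≤ E x) ∧ ∃ φ : C.left.functionField, φ ≠ 0 ∧
      ∀ x, ordAt C φ x = norm ρ T E x - norm ρ T D x

/-- The quotient of `C` by the kernel of the character `χ_T` has genus `γ`: the genus is the least
number `γ` with the property `Effective` (the kernel of the pull-back of divisor classes is finite,
and the classes of the effective divisors of degree `γ` form a closed subset of dimension `γ` of the
Jacobian variety if `γ` is at most the genus). -/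
def HasQuotientGenus {r : ℕ} {C : Over (Spec (.of k))} [Curve C] (ρ : (Fin r → ℤˣ) →* End C)
    (T : Finset (Fin r)) (γ : ℕ) : Prop :=
  IsLeast {γ | Effective ρ T γ} γ

/-- The quadratic covering of `C / (ℤ/2)^r` given by the character `χ_T` is ramified: some point `w`
of `C` is fixed by an element `g` with `χ_T(g) = -1`. -/
def Ramified {r : ℕ} {C : Over (Spec (.of k))} (ρ : (Fin r → ℤˣ) →* End C)
    (T : Finset (Fin r)) : Prop :=
  ∃ (w : Pt C) (g : Fin r → ℤˣ), chi T g = -1 ∧ w ≫ (ρ g : C ⟶ C) = w

end Pool.Agent.Run7.h780.VQ
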