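import Pool.Agent.Run7.h220.ZCProd
import Pool.Agent.Run7.h780.VQ.Defs

/-!
# The action of `(ℤ/2)^r` on zero-cycles
-/

set_option autoImplicit false

open CategoryTheory CategoryTheory.Limits AlgebraicGeometry

universe u

namespace Pool.Agent.Run7.h780.VQ

open Run7.h220.ZC Run7.h220.Comb

variable {k : Type u} [Field k] {r : ℕ}

lemma chi_mul (T : Finset (Fin r)) (g h : Fin r → ℤˣ) : chi T (g * h) = chi T g * chi T h := by
  simp [chi, Finset.prod_mul_distrib]

lemma chi_self (T : Finset (Fin r)) (g : Fin r → ℤˣ) : chi T g * chi T g = 1 :=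
  Int.units_mul_self _

/-- The value of the character as a rational number. -/
def cq (T : Finset (Fin r)) (g : Fin r → ℤˣ) : ℚ := ((chi T g : ℤ) : ℚ)

lemma cq_mul (T : Finset (Fin r)) (g h : Fin r → ℤˣ) : cq T (g * h) = cq T g * cq T h := by
  unfold cq
  rw [chi_mul]
  push_cast
  rfl

lemma cq_self (T : Finset (Fin r)) (g : Fin r → ℤˣ) : cq T g * cq T g = 1 := by
  rw [← cq_mul]
  unfold cq
  rw [chi_mul, chi_self]
  simp

lemma sq_one (h : Fin r → ℤˣ) : h * h = 1 := by
  funext i
  exact Int.units_mul_self _

section act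

variable {C : Over (Spec (.of k))} (ρ : (Fin r → ℤˣ) →* End C)

lemma comp_rho (g h : Fin r → ℤˣ) : (ρ h : C ⟶ C) ≫ (ρ g : C ⟶ C) = (ρ (g * h) : C ⟶ C) := by
  rw [map_mul]
  rfl

lemma push_push (g h : Fin r → ℤˣ) (D : ZeroCycle C) :
    push (ρ g : C ⟶ C) (push (ρ h : C ⟶ C) D) = push (ρ (g * h) : C ⟶ C) D := by
  rw [← comp_rho, push_comp]

/-- The multiple `∑ χ_T(g) g` of the projector on the `χ_T`-part. -/
noncomputable def e (T : Finset (Fin r)) : ZeroCycle C →ₗ[ℚ] ZeroCycle C :=
  ∑ g, cq T g • push (ρ g : C ⟶ C)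

lemma e_apply (T : Finset (Fin r)) (D : ZeroCycle C) :
    e ρ T D = ∑ g, cq T g • push (ρ g : C ⟶ C) D := by
  simp [e, LinearMap.sum_apply]

lemma e_push (T : Finset (Fin r)) (h : Fin r → ℤˣ) (D : ZeroCycle C) :
    e ρ T (push (ρ h : C ⟶ C) D) = cq T h • e ρ T D := by
  rw [e_apply, e_apply, Finset.smul_sum]
  rw [← Equiv.sum_comp (Equiv.mulRight h) (fun g => cq T h • cq T g • push (ρ g : C ⟶ C) D)]
  refine Finset.sum_congr rfl fun g _ => ?_
  rw [push_push, Equiv.coe_mulRight, smul_smul, cq_mul]
  congr 1
  linear_combination (-cq T g) * cq_self T h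

lemma e_single (T : Finset (Fin r)) (h : Fin r → ℤˣ) (x : Pt C) (c : ℚ) :
    e ρ T (Finsupp.single (x ≫ (ρ h : C ⟶ C)) c) = cq T h • e ρ T (Finsupp.single x c) := by
  rw [← e_push, push_single]

lemma e_ramified {T : Finset (Fin r)} {w : Pt C} {g : Fin r → ℤˣ} (hg : chi T g = -1)
    (hw : w ≫ (ρ g : C ⟶ C) = w) : e ρ T (Finsupp.single w 1) = 0 := by
  have h := e_single ρ T g w 1
  rw [hw] at h
  have h1 : cq T g = -1 := by simp [cq, hg]
  rw [h1, neg_one_smul] at h
  have h2 : (2 : ℚ) • e ρ T (Finsupp.single w 1) = 0 := by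
    rw [two_smul]
    nth_rewrite 1 [h]
    simp
  exact (smul_eq_zero.1 h2).resolve_left two_ne_zero

/-- The sum of the translates by the kernel of `χ_T`. -/
noncomputable def nm (T : Finset (Fin r)) : ZeroCycle C →ₗ[ℚ] ZeroCycle C :=
  ∑ g with chi T g = 1, push (ρ g : C ⟶ C)

lemma nm_apply (T : Finset (Fin r)) (D : ZeroCycle C) :
    nm ρ T D = ∑ g with chi T g = 1, push (ρ g : C ⟶ C) D := by
  simp [nm, LinearMap.sum_apply]

lemma toQ_norm (T : Finset (Fin r)) (D : Pt C →₀ ℤ) : toQ (norm ρ T D) = nm ρ T (toQ D) := by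
  rw [nm_apply]
  unfold norm
  rw [map_sum]
  refine Finset.sum_congr rfl fun g _ => ?_
  unfold toQ push
  rw [Finsupp.lmapDomain_apply]
  simp only [Finsupp.mapRange.addMonoidHom_apply]
  rw [Finsupp.mapDomain_mapRange]
  exact fun x y => map_add _ x y

/-- The number of elements of the kernel of `χ_T`. -/
def kc (T : Finset (Fin r)) : ℕ := (Finset.univ.filter fun g : Fin r → ℤˣ => chi T g = 1).card

lemma kc_pos (T : Finset (Fin r)) : 0 < kc T := by
  unfold kc
  refine Finset.card_pos.2 ⟨1, ?_⟩
  simp [chi]

lemma nm_empty (D : ZeroCycle C) : nm ρ ∅ D = e ρ ∅ D := by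
  rw [nm_apply, e_apply]
  have h : ∀ g : Fin r → ℤˣ, chi (∅ : Finset (Fin r)) g = 1 := fun g => by simp [chi]
  rw [Finset.filter_true_of_mem fun g _ => h g]
  refine Finset.sum_congr rfl fun g _ => ?_
  simp [cq, h]

end act

/-- Orthogonality of the characters. -/
lemma sum_chi (g : Fin r → ℤˣ) :
    ∑ T : Finset (Fin r), cq T g = if g = 1 then (2 : ℚ) ^ r else 0 := by
  have h1 : ∑ T : Finset (Fin r), cq T g = ∏ i, (1 + ((g i : ℤ) : ℚ)) := by
    rw [Finset.prod_one_add]
    rw [← Finset.powerset_univ]
    refine Finset.sum_congr rfl fun T _ => ?_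
    simp [cq, chi]
  rw [h1]
  split_ifs with h
  · subst h
    simp
    norm_num
  · obtain ⟨i, hi⟩ := Function.ne_iff.1 h
    refine Finset.prod_eq_zero (Finset.mem_univ i) ?_
    have h2 : g i = -1 := (Int.units_eq_one_or (g i)).resolve_left hi
    rw [h2]
    simp

section geo

variable (C S : Over (Spec (.of k)))

/-- The functions on the points of `C` with values in the zero-cycles on `S` which are combinations of
morphisms. -/
noncomputable def Geo : Submodule ℚ (Pt C → ZeroCycle S) :=
  Submodule.span ℚ {A | ∃ f : C ⟶ S, A = fun x => Finsupp.single (x ≫ f) 1}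

variable {C S}

lemma geo_const (z : ZeroCycle S) : (fun _ : Pt C => z) ∈ Geo C S := by
  induction z using Finsupp.induction_linear with
  | zero => exact Submodule.zero_mem _
  | add z z' h h' => exact Submodule.add_mem _ h h'
  | single s c =>
    have h1 : (fun _ : Pt C => (Finsupp.single s c : ZeroCycle S)) =
        c • ((fun x : Pt C => (Finsupp.single (x ≫ cst C s) (1 : ℚ) : ZeroCycle S)) :
          Pt C → ZeroCycle S) := by
      funext x
      simp
    rw [h1]
    exact Submodule.smul_mem _ _ (Submodule.subset_span ⟨_, rfl⟩)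

/-- A multilinear function of zero-cycles on `S` which is compatible with families of points of `S^n`
parametrized by curves. -/
def GeoC {κ V : Type*} [AddCommGroup V] [Module ℚ V] (C : Over (Spec (.of k)))
    (G : MultilinearMap ℚ (fun _ : κ => ZeroCycle S) V) : Prop :=
  ∀ A : κ → Pt C → ZeroCycle S, (∀ i, A i ∈ Geo C S) → ∀ D ∈ ratZero C,
    lin (fun x => G fun i => A i x) D = 0

lemma geoC_E (n : ℕ) : GeoC C (E S n) := by
  classical
  intro A hA D hD
  have key : ∀ (s : Finset (Fin n)) (A : Fin n → Pt C → ZeroCycle S), (∀ i ∈ s, A i ∈ Geo C S) →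
      (∀ i ∉ s, ∃ f : C ⟶ S, A i = fun x => Finsupp.single (x ≫ f) 1) →
      lin (fun x => E S n fun i => A i x) D = 0 := by
    intro s
    induction s using Finset.induction with
    | empty =>
      intro A _ h
      have h' : ∀ i, ∃ f : C ⟶ S, A i = fun x => Finsupp.single (x ≫ f) 1 := fun i => h i (by simp)
      choose f hf using h'
      have h1 : (fun x : Pt C => E S n fun i => A i x) =
          fun x => cls _ (Finsupp.single (x ≫ Pi.lift f) 1) := by
        funext x
        have h2 : (fun i => A i x) = fun i => Finsupp.single (x ≫ f i) 1 := by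
          funext i; rw [hf i]
        rw [h2]
        unfold E
        rw [mext_single]
        congr 2
        refine Pi.hom_ext _ _ fun i => ?_
        simp
      rw [h1]
      exact lin_cls _ hD
    | insert i s hi ih =>
      intro A h1 h2
      have h3 : ∀ a ∈ Geo C S, lin (fun x => E S n fun j => Function.update A i a j x) D = 0 := by
        have hu : ∀ (a : Pt C → ZeroCycle S) (x : Pt C), (fun j => Function.update A i a j x) =
            Function.update (fun j => A j x) i (a x) := by
          intro a x
          funext j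
          by_cases hj : j = i
          · subst hj; simp
          · simp [hj]
        intro a ha
        induction ha using Submodule.span_induction with
        | mem a ha =>
          obtain ⟨f, rfl⟩ := ha
          refine ih _ (fun j hj => ?_) fun j hj => ?_
          · have hji : j ≠ i := fun h => hi (h ▸ hj)
            rw [Function.update_of_ne hji]
            exact h1 j (Finset.mem_insert_of_mem hj)
          · by_cases hji : j = i
            · subst hji
              exact ⟨f, by rw [Function.update_self]⟩
            · rw [Function.update_of_ne hji]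
              exact h2 j (by simp [hji, hj])
        | zero =>
          simp only [hu]
          have : (fun x : Pt C => E S n (Function.update (fun j => A j x) i
              ((0 : Pt C → ZeroCycle S) x))) = fun x => (0 : ℚ) • (0 : ZeroCycle (∏ᶜ fun _ : Fin n => S) ⧸ ratZero (∏ᶜ fun _ : Fin n => S)) := by
            funext x
            rw [Pi.zero_apply, MultilinearMap.map_update_zero, smul_zero]
          rw [this, lin_smul, zero_smul]
        | add a b _ _ ha hb =>
          simp only [hu] at ha hb ⊢
          simp only [Pi.add_apply, MultilinearMap.map_update_add]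
          rw [lin_add, ha, hb, add_zero]
        | smul c a _ ha =>
          simp only [hu] at ha ⊢
          simp only [Pi.smul_apply, MultilinearMap.map_update_smul]
          rw [lin_smul, ha, smul_zero]
      have h4 := h3 (A i) (h1 i (Finset.mem_insert_self _ _))
      rwa [Function.update_eq_self] at h4
  exact key Finset.univ A (fun i _ => hA i) (fun i hi => absurd (Finset.mem_univ i) hi)

end geo

section plug

variable {ι κ M V : Type*} [AddCommGroup M] [Module ℚ M] [AddCommGroup V] [Module ℚ V]

open Classical in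
/-- The multilinear function obtained by fixing the arguments outside the image of `ψ`. -/
noncomputable def plug (F : MultilinearMap ℚ (fun _ : ι => M) V) (ψ : κ ↪ ι) (b : ι → M) :
    MultilinearMap ℚ (fun _ : κ => M) V :=
  (F.domDomRestrict (· ∈ Set.range ψ) fun i => b i).domDomCongr
    (Equiv.ofInjective ψ ψ.injective).symm

open Classical in
lemma plug_apply (F : MultilinearMap ℚ (fun _ : ι => M) V) (ψ : κ ↪ ι) (b : ι → M) (c : κ → M) :
    plug F ψ b c = F fun i => if h : i ∈ Set.range ψ then
      c ((Equiv.ofInjective ψ ψ.injective).symm ⟨i, h⟩) else b i := by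
  unfold plug
  rw [MultilinearMap.domDomCongr_apply, MultilinearMap.domDomRestrict_apply]

end plug

lemma geoC_plug {ι κ V : Type*} [AddCommGroup V] [Module ℚ V] {C S : Over (Spec (.of k))}
    {F : MultilinearMap ℚ (fun _ : ι => ZeroCycle S) V} (hF : GeoC C F) (ψ : κ ↪ ι)
    (b : ι → ZeroCycle S) : GeoC C (plug F ψ b) := by
  classical
  intro A hA D hD
  simp only [plug_apply]
  have h1 := hF (fun i x => if h : i ∈ Set.range ψ then
      A ((Equiv.ofInjective ψ ψ.injective).symm ⟨i, h⟩) x else b i) (fun i => by
    by_cases h : i ∈ Set.range ψ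
    · simp only [h, dif_pos]
      exact hA _
    · simp only [h, dif_neg, not_false_eq_true]
      exact geo_const _) D hD
  rw [← h1]

end Pool.Agent.Run7.h780.VQ
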