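import Pool.Agent.Run7.h220.AltSym

/-!
# Alternating sums over antisymmetric pairs
-/

set_option autoImplicit false

open Equiv

namespace Pool.Agent.Run7.h780.VQ

open Run7.h220.Comb

variable {M : Type*} [AddCommGroup M] [Module ℚ M] {n : ℕ}

/-- If the symmetrizations of `z π` over more than `g` positions are zero, and `z` changes its sign
under the exchange of the two members of a pair, and `n > g (g + 1) / 2`, then the alternating sum
over the permutations of the pairs is zero. -/
theorem alt_anti {g : ℕ} (hg : (g + 1).choose 2 < n) (z : Perm (Fin n × Bool) → M)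
    (h1 : ∀ A : Finset (Fin n × Bool), A.card = g + 1 → ∀ π : Perm (Fin n × Bool),
      ∑ ρ : Perm A, z (π * Perm.ofSubtype ρ) = 0)
    (h2 : ∀ (σ : Perm (Fin n)) (ε : Fin n → Perm Bool), z (pr σ ε) =
      (∏ i, ((Perm.sign (ε i) : ℤ) : ℚ)) • z (pr σ 1)) :
    ∑ σ : Perm (Fin n), ((Perm.sign σ : ℤ) : ℚ) • z (pr σ 1) = 0 := by
  classical
  let F : Perm (Fin n × Bool) → ℚ := fun π =>
    ∑ σ : Perm (Fin n), ∑ ε : Fin n → Perm Bool,
      if pr σ ε = π then ((Perm.sign σ : ℤ) : ℚ) else 0
  have key := Pool.Agent.R904.Voi.alt_sum (κ := Fin n × Bool) (Q := Unit) (Γ := Fin g) (M := M)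
    (fun _ => ()) (fun _ => ()) F (fun _ _ _ => rfl) ?_ z ?_
  · have e1 : ∑ π : Perm (Fin n × Bool), (((Perm.sign π : ℤ) : ℚ) * F π) • z π =
        ∑ σ : Perm (Fin n), ∑ ε : Fin n → Perm Bool, ((Perm.sign σ : ℤ) : ℚ) • z (pr σ 1) := by
      have e2 : ∀ π : Perm (Fin n × Bool), (((Perm.sign π : ℤ) : ℚ) * F π) • z π =
          ∑ σ : Perm (Fin n), ∑ ε : Fin n → Perm Bool,
            if pr σ ε = π then ((Perm.sign σ : ℤ) : ℚ) • z (pr σ 1) else 0 := by
        intro π
        simp only [F]
        rw [Finset.mul_sum, Finset.sum_smul]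
        refine Finset.sum_congr rfl fun σ _ => ?_
        rw [Finset.mul_sum, Finset.sum_smul]
        refine Finset.sum_congr rfl fun ε _ => ?_
        split_ifs with h
        · subst h
          rw [h2 σ ε, sign_pr, smul_smul]
          congr 1
          have e3 : ∀ i, (((Perm.sign (ε i) : ℤ) : ℚ)) * ((Perm.sign (ε i) : ℤ) : ℚ) = 1 := by
            intro i
            rw [← Int.cast_mul, Int.units_coe_mul_self, Int.cast_one]
          have e4 : (((∏ i, Perm.sign (ε i) : ℤˣ) : ℤ) : ℚ) = ∏ i, ((Perm.sign (ε i) : ℤ) : ℚ) := by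
            push_cast
            rfl
          rw [e4]
          calc (∏ i, ((Perm.sign (ε i) : ℤ) : ℚ)) * ((Perm.sign σ : ℤ) : ℚ) *
                ∏ i, ((Perm.sign (ε i) : ℤ) : ℚ) =
                ((Perm.sign σ : ℤ) : ℚ) * ∏ i, (((Perm.sign (ε i) : ℤ) : ℚ) *
                  ((Perm.sign (ε i) : ℤ) : ℚ)) := by
                rw [Finset.prod_mul_distrib]; ring
            _ = _ := by rw [Finset.prod_congr rfl fun i _ => e3 i, Finset.prod_const_one, mul_one]
        · rw [mul_zero, zero_smul]
      rw [Finset.sum_congr rfl fun π _ => e2 π, Finset.sum_comm]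
      refine Finset.sum_congr rfl fun σ _ => ?_
      rw [Finset.sum_comm]
      refine Finset.sum_congr rfl fun ε _ => ?_
      rw [Finset.sum_ite_eq, if_pos (Finset.mem_univ _)]
    rw [e1] at key
    have e5 : ∑ σ : Perm (Fin n), ∑ _ε : Fin n → Perm Bool, ((Perm.sign σ : ℤ) : ℚ) • z (pr σ 1) =
        (Fintype.card (Fin n → Perm Bool) : ℚ) •
          ∑ σ : Perm (Fin n), ((Perm.sign σ : ℤ) : ℚ) • z (pr σ 1) := by
      rw [Finset.smul_sum]
      refine Finset.sum_congr rfl fun σ _ => ?_
      rw [Finset.sum_const, Finset.card_univ, ← Nat.cast_smul_eq_nsmul ℚ]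
    rw [e5] at key
    exact (smul_eq_zero.1 key).resolve_left (Nat.cast_ne_zero.2 Fintype.card_ne_zero)
  · intro c _ Y
    let M' : Fin n → Fin n → ℚ := fun j i => ∑ τ : Perm Bool, ∏ b, Y (c (i, b)) (j, τ b)
    have e1 : ∑ π : Perm (Fin n × Bool), F π * ∏ k, Y (c k) (π k) =
        (Matrix.of fun j i : Fin n => M' j i).det := by
      have e2 : ∀ π : Perm (Fin n × Bool), F π * ∏ k, Y (c k) (π k) =
          ∑ σ : Perm (Fin n), ∑ ε : Fin n → Perm Bool,
            if pr σ ε = π then ((Perm.sign σ : ℤ) : ℚ) *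
              ∏ i, (∏ b, Y (c (i, b)) (σ i, ε i b)) else 0 := by
        intro π
        simp only [F]
        rw [Finset.sum_mul]
        refine Finset.sum_congr rfl fun σ _ => ?_
        rw [Finset.sum_mul]
        refine Finset.sum_congr rfl fun ε _ => ?_
        split_ifs with h
        · subst h
          rw [Fintype.prod_prod_type]
          rfl
        · rw [zero_mul]
      rw [Finset.sum_congr rfl fun π _ => e2 π, Finset.sum_comm, Matrix.det_apply]
      refine Finset.sum_congr rfl fun σ _ => ?_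
      rw [Finset.sum_comm]
      have e3 : ∀ ε : Fin n → Perm Bool, (∑ π : Perm (Fin n × Bool), if pr σ ε = π then
          ((Perm.sign σ : ℤ) : ℚ) * ∏ i, (∏ b, Y (c (i, b)) (σ i, ε i b)) else 0) =
          ((Perm.sign σ : ℤ) : ℚ) * ∏ i, (∏ b, Y (c (i, b)) (σ i, ε i b)) := by
        intro ε
        rw [Finset.sum_ite_eq, if_pos (Finset.mem_univ _)]
      rw [Finset.sum_congr rfl fun ε _ => e3 ε, ← Finset.mul_sum, Units.smul_def, zsmul_eq_mul]
      congr 1
      rw [← Fintype.piFinset_univ, ← Finset.prod_univ_sum (fun _ : Fin n => (Finset.univ : Finset (Perm Bool)))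
        (fun i τ => ∏ b, Y (c (i, b)) (σ i, τ b))]
      rfl
    rw [e1]
    -- two columns belong to the same pair
    have hcard : Fintype.card (Sym2 (Fin g)) < Fintype.card (Fin n) := by
      rw [Sym2.card, Fintype.card_fin, Fintype.card_fin]
      exact hg
    obtain ⟨i, i', hne, heq⟩ := Fintype.exists_ne_map_eq_of_card_lt
      (fun i : Fin n => s(c (i, false), c (i, true))) hcard
    have hper : ∀ j i, M' j i = Y (c (i, false)) (j, false) * Y (c (i, true)) (j, true) +
        Y (c (i, true)) (j, false) * Y (c (i, false)) (j, true) := by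
      intro j i
      simp only [M']
      rw [Fintype.sum_eq_add (1 : Perm Bool) (swap false true)]
      · simp
        ring
      · decide
      · rintro τ ⟨h3, h4⟩
        exfalso
        revert h3 h4
        revert τ
        decide
    rcases Sym2.eq_iff.1 heq with ⟨h3, h4⟩ | ⟨h3, h4⟩
    · refine Matrix.det_zero_of_column_eq hne fun j => ?_
      simp only [Matrix.of_apply, hper, h3, h4]
    · refine Matrix.det_zero_of_column_eq hne fun j => ?_
      simp only [Matrix.of_apply, hper, h3, h4]
      ring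
  · intro _ A hA _ π _
    exact h1 A (by rw [hA]; simp) π

end Pool.Agent.Run7.h780.VQ
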