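import Pool.Agent.Run7.h780.VQ.Act

/-!
# The part of one character
-/

set_option autoImplicit false

open CategoryTheory CategoryTheory.Limits AlgebraicGeometry

universe u

namespace Pool.Agent.Run7.h780.VQ

open Run7.h220.ZC Run7.h220.Comb

variable {k : Type u} [Field k] {r : ℕ}

section

variable {C : Over (Spec (.of k))} (ρ : (Fin r → ℤˣ) →* End C)

/-- The zero-cycles whose pull-back from the quotient by the kernel of `χ_T` is rationally equivalent to
zero. -/
noncomputable def Lq (T : Finset (Fin r)) : Submodule ℚ (ZeroCycle C) :=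
  (ratZero C).comap (nm ρ T)

lemma mem_Lq {T : Finset (Fin r)} {D : ZeroCycle C} : D ∈ Lq ρ T ↔ nm ρ T D ∈ ratZero C := Iff.rfl

variable {ρ}

lemma lin_push' {V : Type*} [AddCommGroup V] [Module ℚ V] (φ : Pt C → V) (f : C ⟶ C)
    (D : ZeroCycle C) : lin φ (push f D) = lin (fun x => φ (x ≫ f)) D := by
  have h : (lin φ).comp (push f) = lin fun x => φ (x ≫ f) := by
    refine Finsupp.lhom_ext fun x c => ?_
    rw [LinearMap.comp_apply, push_single]
    unfold lin
    rw [Finsupp.linearCombination_single, Finsupp.linearCombination_single]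
  exact LinearMap.congr_fun h D

lemma compat_t {T : Finset (Fin r)} {κ V : Type*} [AddCommGroup V] [Module ℚ V]
    {S : Over (Spec (.of k))} {G : MultilinearMap ℚ (fun _ : κ => ZeroCycle S) V} (hG : GeoC C G)
    (t : κ → ZeroCycle C →ₗ[ℚ] ZeroCycle S)
    (h1 : ∀ i, (fun x => t i (Finsupp.single x 1)) ∈ Geo C S)
    (h2 : ∀ i g x, chi T g = 1 →
      t i (Finsupp.single (x ≫ (ρ g : C ⟶ C)) 1) = t i (Finsupp.single x 1)) :
    Compat (Lq ρ T) (G.compLinearMap t) := by
  intro h D hD
  set φ : Pt C → V := fun x => (G.compLinearMap t) fun i => Finsupp.single ((h i).getD x) 1 with hφ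
  have e1 : lin φ (nm ρ T D) = 0 := by
    have := hG (fun i x => t i (Finsupp.single ((h i).getD x) 1)) (fun i => by
      rcases hi : h i with _ | p
      · simpa using h1 i
      · simpa using geo_const (C := C) (t i (Finsupp.single p 1))) _ hD
    exact this
  have e2 : lin φ (nm ρ T D) = (kc T : ℚ) • lin φ D := by
    rw [nm_apply, map_sum]
    have e3 : ∀ g ∈ Finset.univ.filter (fun g : Fin r → ℤˣ => chi T g = 1),
        lin φ (push (ρ g : C ⟶ C) D) = lin φ D := by
      intro g hg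
      rw [lin_push']
      congr 2
      funext x
      simp only [hφ, MultilinearMap.compLinearMap_apply]
      congr 1
      funext i
      rcases h i with _ | p
      · exact h2 i g x (Finset.mem_filter.1 hg).2
      · rfl
    rw [Finset.sum_congr rfl e3, Finset.sum_const, kc, Nat.cast_smul_eq_nsmul]
  rw [e1] at e2
  exact (smul_eq_zero.1 e2.symm).resolve_left (Nat.cast_ne_zero.2 (kc_pos T).ne')

/-- The symmetrized product of more than `γ` zero-cycles `[s_j] - [w]` is zero for the functions which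
depend on the classes on the quotient of genus `γ` only. -/
theorem symm_T [IsAlgClosed k] [Curve C] {T : Finset (Fin r)} {γ : ℕ} (hγ : Effective ρ T γ)
    {V : Type*} [AddCommGroup V] [Module ℚ V]
    {F : MultilinearMap ℚ (fun _ : Fin (γ + 1) => Pt C →₀ ℚ) V} (hF : Compat (Lq ρ T) F)
    (w : Pt C) (s : Fin (γ + 1) → Pt C) :
    ∑ σ : Equiv.Perm (Fin (γ + 1)), F (fun j => u w (s (σ j))) = 0 := by
  let D : Pt C →₀ ℤ := ∑ j, Finsupp.single (s j) 1 - Finsupp.single w 1
  have hdeg : (D.sum fun _ n => n) = γ := by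
    have h1 := map_sub (Finsupp.liftAddHom (fun _ : Pt C => AddMonoidHom.id ℤ))
      (∑ j, Finsupp.single (s j) 1) (Finsupp.single w 1)
    simp only [AddMonoidHom.id_apply, Finsupp.liftAddHom_apply_single] at h1
    rw [Finsupp.liftAddHom_apply, Finsupp.liftAddHom_apply] at h1
    have h2 := sum_single_deg s
    change (D.sum fun _ n => n) = (∑ j, Finsupp.single (s j) 1 : Pt C →₀ ℤ).sum (fun _ n => n) - 1 at h1
    rw [h1, h2]
    push_cast
    ring
  obtain ⟨E, hE, f, hf0, hf⟩ := hγ D hdeg.ge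
  have hED : toQ E - toQ D ∈ Lq ρ T := by
    rw [mem_Lq, map_sub, ← toQ_norm, ← toQ_norm]
    refine Submodule.subset_span ⟨C, inferInstance, 𝟙 C, toQ (norm ρ T E) - toQ (norm ρ T D),
      ⟨f, hf0, fun x => ?_⟩, ?_⟩
    · rw [Finsupp.sub_apply, toQ_apply, toQ_apply, hf]
      push_cast
      rfl
    · rw [push_id]
  obtain ⟨N, e, rfl⟩ := exists_points E hE
  have hL : ∑ j, (Finsupp.single (s j) 1 : Pt C →₀ ℚ) -
      (Finsupp.single w 1 + ∑ j, (Finsupp.single (e j) 1 : Pt C →₀ ℚ)) ∈ Lq ρ T := by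
    have h2 := Submodule.neg_mem _ hED
    convert h2 using 1
    simp only [D, map_sub, map_sum, toQ_single]
    push_cast
    abel
  by_cases hN : N = γ
  · subst hN
    refine symm_zero hF s (Fin.cons w e) ?_ 0 (by simp)
    rw [Fin.sum_univ_succ (fun j => (Finsupp.single ((Fin.cons w e : Fin (N + 1) → Pt C) j) 1 :
      Pt C →₀ ℚ))]
    simpa using hL
  · have hpt : ∀ p : Pt C, (Finsupp.single p 1 : Pt C →₀ ℚ) ∈ ratZero C := by
      intro p
      have h3 := push_mem (cst C p) ((mem_Lq ρ).1 hL)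
      have h5 : ∀ X : ZeroCycle C, push (cst C p) (nm ρ T X) = (kc T : ℚ) • push (cst C p) X := by
        intro X
        rw [nm_apply, map_sum]
        have e3 : ∀ g ∈ Finset.univ.filter (fun g : Fin r → ℤˣ => chi T g = 1),
            push (cst C p) (push (ρ g : C ⟶ C) X) = push (cst C p) X := by
          intro g _
          rw [← push_comp, comp_cst']
        rw [Finset.sum_congr rfl e3, Finset.sum_const, kc, Nat.cast_smul_eq_nsmul]
      rw [h5] at h3
      have h3' := (Submodule.smul_mem_iff _ (Nat.cast_ne_zero.2 (kc_pos T).ne')).1 h3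
      rw [map_sub, map_add, map_sum, map_sum] at h3'
      simp only [push_single, comp_cst, Finset.sum_const, Finset.card_univ, Fintype.card_fin] at h3'
      have h4 : (γ + 1) • (Finsupp.single p 1 : Pt C →₀ ℚ) -
          (Finsupp.single p 1 + N • (Finsupp.single p 1 : Pt C →₀ ℚ)) =
          ((γ : ℚ) - N) • (Finsupp.single p 1 : Pt C →₀ ℚ) := by
        rw [← Nat.cast_smul_eq_nsmul ℚ, ← Nat.cast_smul_eq_nsmul ℚ]
        push_cast
        module
      rw [h4] at h3'
      refine (Submodule.smul_mem_iff _ ?_).1 h3'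
      intro h5
      apply hN
      have : (γ : ℚ) = N := sub_eq_zero.1 h5
      exact_mod_cast this.symm
    have hpt' : ∀ p : Pt C, (Finsupp.single p 1 : Pt C →₀ ℚ) ∈ Lq ρ T := by
      intro p
      rw [mem_Lq, nm_apply]
      refine Submodule.sum_mem _ fun g _ => ?_
      rw [push_single]
      exact hpt _
    refine Finset.sum_eq_zero fun σ _ => ?_
    have h6 : (fun j => u w (s (σ j))) = (Fin.cons (u w (s (σ 0))) fun j : Fin γ =>
        u w (s (σ j.succ)) : Fin (γ + 1) → (Pt C →₀ ℚ)) := by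
      funext j
      refine Fin.cases ?_ (fun j => ?_) j <;> simp
    rw [h6]
    exact cons_zero hF (Submodule.sub_mem _ (hpt' _) (hpt' _)) _

end

section two

variable {C₁ C₂ S : Over (Spec (.of k))} (q : C₁ ⨯ C₂ ⟶ S)

/-- The image of the external product. -/
noncomputable def be : ZeroCycle C₁ →ₗ[ℚ] ZeroCycle C₂ →ₗ[ℚ] ZeroCycle S :=
  (B C₁ C₂).compr₂ (push q)

lemma be_single (x : Pt C₁) (y : Pt C₂) :
    be q (Finsupp.single x 1) (Finsupp.single y 1) = Finsupp.single (prod.lift x y ≫ q) 1 := by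
  unfold be
  rw [LinearMap.compr₂_apply, B_single, push_single]

lemma geo_left (f : C₁ ⟶ C₁) (c : ZeroCycle C₂) :
    (fun x : Pt C₁ => be q (Finsupp.single (x ≫ f) 1) c) ∈ Geo C₁ S := by
  induction c using Finsupp.induction_linear with
  | zero =>
    simp only [map_zero]
    exact Submodule.zero_mem (Geo C₁ S)
  | add z z' h h' =>
    have : (fun x : Pt C₁ => be q (Finsupp.single (x ≫ f) 1) (z + z')) =
        (fun x : Pt C₁ => be q (Finsupp.single (x ≫ f) 1) z) +
        fun x : Pt C₁ => be q (Finsupp.single (x ≫ f) 1) z' := by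
      funext x
      simp
    rw [this]
    exact Submodule.add_mem _ h h'
  | single y c =>
    have h1 : (fun x : Pt C₁ => be q (Finsupp.single (x ≫ f) 1) (Finsupp.single y c)) =
        c • ((fun x : Pt C₁ => (Finsupp.single (x ≫ prod.lift f (cst C₁ y) ≫ q) (1 : ℚ) :
          ZeroCycle S)) : Pt C₁ → ZeroCycle S) := by
      funext x
      have h2 : (Finsupp.single y c : ZeroCycle C₂) = c • Finsupp.single y 1 := by simp
      rw [h2, map_smul, be_single, Pi.smul_apply, ← Category.assoc, prod.comp_lift, comp_cst]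
    rw [h1]
    exact Submodule.smul_mem _ _ (Submodule.subset_span ⟨_, rfl⟩)

lemma geo_right (f : C₂ ⟶ C₂) (c : ZeroCycle C₁) :
    (fun y : Pt C₂ => be q c (Finsupp.single (y ≫ f) 1)) ∈ Geo C₂ S := by
  induction c using Finsupp.induction_linear with
  | zero =>
    simp only [map_zero, LinearMap.zero_apply]
    exact Submodule.zero_mem (Geo C₂ S)
  | add z z' h h' =>
    have : (fun y : Pt C₂ => be q (z + z') (Finsupp.single (y ≫ f) 1)) =
        (fun y : Pt C₂ => be q z (Finsupp.single (y ≫ f) 1)) +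
        fun y : Pt C₂ => be q z' (Finsupp.single (y ≫ f) 1) := by
      funext x
      simp
    rw [this]
    exact Submodule.add_mem _ h h'
  | single x c =>
    have h1 : (fun y : Pt C₂ => be q (Finsupp.single x c) (Finsupp.single (y ≫ f) 1)) =
        c • ((fun y : Pt C₂ => (Finsupp.single (y ≫ prod.lift (cst C₂ x) f ≫ q) (1 : ℚ) :
          ZeroCycle S)) : Pt C₂ → ZeroCycle S) := by
      funext y
      have h2 : (Finsupp.single x c : ZeroCycle C₁) = c • Finsupp.single x 1 := by simp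
      rw [h2, map_smul, LinearMap.smul_apply, be_single, Pi.smul_apply, ← Category.assoc,
        prod.comp_lift, comp_cst]
    rw [h1]
    exact Submodule.smul_mem _ _ (Submodule.subset_span ⟨_, rfl⟩)

variable (ρ₁ : (Fin r → ℤˣ) →* End C₁) (ρ₂ : (Fin r → ℤˣ) →* End C₂)

lemma geo_e_left (T : Finset (Fin r)) (c : ZeroCycle C₂) :
    (fun x : Pt C₁ => be q (e ρ₁ T (Finsupp.single x 1)) c) ∈ Geo C₁ S := by
  have h : (fun x : Pt C₁ => be q (e ρ₁ T (Finsupp.single x 1)) c) =
      ∑ g, cq T g • fun x : Pt C₁ => be q (Finsupp.single (x ≫ (ρ₁ g : C₁ ⟶ C₁)) 1) c := by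
    funext x
    rw [e_apply, map_sum, LinearMap.sum_apply, Finset.sum_apply]
    refine Finset.sum_congr rfl fun g _ => ?_
    rw [push_single, map_smul, LinearMap.smul_apply, Pi.smul_apply]
  rw [h]
  exact Submodule.sum_mem _ fun g _ => Submodule.smul_mem _ _ (geo_left q _ c)

lemma geo_e_right (T : Finset (Fin r)) (c : ZeroCycle C₁) :
    (fun y : Pt C₂ => be q c (e ρ₂ T (Finsupp.single y 1))) ∈ Geo C₂ S := by
  have h : (fun y : Pt C₂ => be q c (e ρ₂ T (Finsupp.single y 1))) =
      ∑ g, cq T g • fun y : Pt C₂ => be q c (Finsupp.single (y ≫ (ρ₂ g : C₂ ⟶ C₂)) 1) := by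
    funext x
    rw [e_apply, map_sum, Finset.sum_apply]
    refine Finset.sum_congr rfl fun g _ => ?_
    rw [push_single, map_smul, Pi.smul_apply]
  rw [h]
  exact Submodule.sum_mem _ fun g _ => Submodule.smul_mem _ _ (geo_right q _ c)

lemma e_inv {C : Over (Spec (.of k))} (ρ : (Fin r → ℤˣ) →* End C) {T : Finset (Fin r)}
    {g : Fin r → ℤˣ} (hg : chi T g = 1) (x : Pt C) :
    e ρ T (Finsupp.single (x ≫ (ρ g : C ⟶ C)) 1) = e ρ T (Finsupp.single x 1) := by
  rw [e_single]
  simp [cq, hg]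

/-- The alternating sum of more than `γ₁ γ₂` products in the part of one character is zero. -/
theorem block [IsAlgClosed k] [Curve C₁] [Curve C₂] {T : Finset (Fin r)} {γ₁ γ₂ : ℕ}
    (h₁ : Effective ρ₁ T γ₁) (h₂ : Effective ρ₂ T γ₂) {w₁ : Pt C₁} {w₂ : Pt C₂}
    (hw₁ : e ρ₁ T (Finsupp.single w₁ 1) = 0) (hw₂ : e ρ₂ T (Finsupp.single w₂ 1) = 0)
    {V : Type*} [AddCommGroup V] [Module ℚ V] {m : ℕ} (hm : γ₁ * γ₂ < m)
    {G : MultilinearMap ℚ (fun _ : Fin m => ZeroCycle S) V} (hG₁ : GeoC C₁ G) (hG₂ : GeoC C₂ G)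
    (x : Fin m → Pt C₁) (y : Fin m → Pt C₂) :
    ∑ σ : Equiv.Perm (Fin m), ((Equiv.Perm.sign σ : ℤ) : ℚ) •
      G (fun i => be q (e ρ₁ T (Finsupp.single (x (σ i)) 1))
        (e ρ₂ T (Finsupp.single (y (σ i)) 1))) = 0 := by
  classical
  have hu₁ : ∀ z : Pt C₁, e ρ₁ T (u w₁ z) = e ρ₁ T (Finsupp.single z 1) := by
    intro z
    unfold u
    rw [map_sub, hw₁, sub_zero]
  have hu₂ : ∀ z : Pt C₂, e ρ₂ T (u w₂ z) = e ρ₂ T (Finsupp.single z 1) := by
    intro z
    unfold u
    rw [map_sub, hw₂, sub_zero]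
  refine Pool.Agent.R904.Voi.alt_two hm (fun σ τ => G (fun i =>
    be q (e ρ₁ T (Finsupp.single (x (σ i)) 1)) (e ρ₂ T (Finsupp.single (y (τ i)) 1)))) ?_ ?_
  · intro A hA σ τ
    have h3 := symm_subset (o := w₁) (compat_t (ρ := ρ₁) (T := T) hG₁
      (fun i => ((be q).flip (e ρ₂ T (Finsupp.single (y (τ i)) 1))).comp (e ρ₁ T))
      (fun i => geo_e_left q ρ₁ T _) (fun i g z hg => by
        simp only [LinearMap.comp_apply]
        rw [e_inv ρ₁ hg]))
      (fun F hF t => symm_T h₁ hF w₁ t) A hA (fun i => x (σ i)) (fun i => u w₁ (x (σ i)))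
    rw [← h3]
    refine Finset.sum_congr rfl fun π _ => ?_
    rw [MultilinearMap.compLinearMap_apply]
    congr 1
    funext i
    simp only [LinearMap.comp_apply, LinearMap.flip_apply]
    by_cases hi : i ∈ A
    · rw [if_pos hi, hu₁]; rfl
    · rw [if_neg hi, hu₁, Equiv.Perm.mul_apply, Equiv.Perm.ofSubtype_apply_of_not_mem _ hi]
  · intro A hA σ τ
    have h3 := symm_subset (o := w₂) (compat_t (ρ := ρ₂) (T := T) hG₂
      (fun i => (be q (e ρ₁ T (Finsupp.single (x (σ i)) 1))).comp (e ρ₂ T))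
      (fun i => geo_e_right q ρ₂ T _) (fun i g z hg => by
        simp only [LinearMap.comp_apply]
        rw [e_inv ρ₂ hg]))
      (fun F hF t => symm_T h₂ hF w₂ t) A hA (fun i => y (τ i)) (fun i => u w₂ (y (τ i)))
    rw [← h3]
    refine Finset.sum_congr rfl fun π _ => ?_
    rw [MultilinearMap.compLinearMap_apply]
    congr 1
    funext i
    simp only [LinearMap.comp_apply]
    by_cases hi : i ∈ A
    · rw [if_pos hi, hu₂]; rfl
    · rw [if_neg hi, hu₂, Equiv.Perm.mul_apply, Equiv.Perm.ofSubtype_apply_of_not_mem _ hi]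

end two

end Pool.Agent.Run7.h780.VQ
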