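import Pool.Agent.Run7.h780.VQ.Defs

/-!
# Mixed quotients of squares of curves: definitions
-/

set_option autoImplicit false

open CategoryTheory CategoryTheory.Limits AlgebraicGeometry

universe u

namespace Pool.Agent.Run7.h780.VQ

open Run7.h220.ZC

variable {k : Type u} [Field k] {r : ℕ}

/-- The set `T'` with `χ_{T'} = χ_T ∘ φ`. -/
def dual (φ : (Fin r → ℤˣ) →* (Fin r → ℤˣ)) (T : Finset (Fin r)) : Finset (Fin r) :=
  Finset.univ.filter fun i => chi T (φ (Pi.mulSingle i (-1))) = -1

/-- The image of a zero-cycle on `C × C` in the Albanese variety of the mixed quotient is trivial: the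
sum of its push-forwards to `C`, pushed forward to `C / G` and pulled back to `C`, is rationally
equivalent to zero. -/
def AlbTrivialMixed {C : Over (Spec (.of k))} (ρ : (Fin r → ℤˣ) →* End C)
    (a : ZeroCycle (C ⨯ C)) : Prop :=
  ∑ g, push (ρ g : C ⟶ C) (push prod.fst a + push prod.snd a) ∈ ratZero C

end Pool.Agent.Run7.h780.VQ
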