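import Pool.Agent.Run7.h780.VQ.Main
import Pool.Agent.Run7.h780.VQ.MixedDefs

/-!
# Automorphisms of the group and characters
-/

set_option autoImplicit false

open CategoryTheory CategoryTheory.Limits AlgebraicGeometry

universe u

namespace Pool.Agent.Run7.h780.VQ

open Run7.h220.ZC Run7.h220.Comb

variable {k : Type u} [Field k] {r : ℕ}

lemma chi_mulSingle (T : Finset (Fin r)) (i : Fin r) (a : ℤˣ) :
    chi T (Pi.mulSingle i a) = if i ∈ T then a else 1 := by
  unfold chi
  exact Finset.prod_pi_mulSingle' i a T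

lemma chi_one (T : Finset (Fin r)) : chi T (1 : Fin r → ℤˣ) = 1 := by simp [chi]

lemma chi_dual (φ : (Fin r → ℤˣ) →* (Fin r → ℤˣ)) (T : Finset (Fin r)) (g : Fin r → ℤˣ) :
    chi (dual φ T) g = chi T (φ g) := by
  let c : (Fin r → ℤˣ) →* ℤˣ :=
    { toFun := fun g => chi T (φ g)
      map_one' := by rw [map_one, chi_one]
      map_mul' := fun a b => by rw [map_mul, chi_mul] }
  let d : (Fin r → ℤˣ) →* ℤˣ :=
    { toFun := fun g => chi (dual φ T) g
      map_one' := chi_one _
      map_mul' := fun a b => chi_mul _ a b }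
  have h : d = c := by
    refine MonoidHom.functions_ext ℤˣ d c fun i a => ?_
    change chi (dual φ T) (Pi.mulSingle i a) = chi T (φ (Pi.mulSingle i a))
    rw [chi_mulSingle]
    rcases Int.units_eq_one_or a with rfl | rfl
    · rw [Pi.mulSingle_one, map_one, chi_one]
      split_ifs <;> rfl
    · by_cases hi : i ∈ dual φ T
      · rw [if_pos hi]
        exact ((Finset.mem_filter.1 hi).2).symm
      · rw [if_neg hi]
        have h2 : ¬ chi T (φ (Pi.mulSingle i (-1))) = -1 := fun h3 =>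
          hi (Finset.mem_filter.2 ⟨Finset.mem_univ _, h3⟩)
        exact ((Int.units_eq_one_or _).resolve_right h2).symm
  exact DFunLike.congr_fun h g

lemma cq_dual (φ : (Fin r → ℤˣ) →* (Fin r → ℤˣ)) (T : Finset (Fin r)) (g : Fin r → ℤˣ) :
    cq (dual φ T) g = cq T (φ g) := by
  unfold cq
  rw [chi_dual]

lemma dual_empty (φ : (Fin r → ℤˣ) →* (Fin r → ℤˣ)) : dual φ ∅ = ∅ := by
  unfold dual
  refine Finset.filter_eq_empty_iff.2 fun i _ h => ?_
  simp [chi] at h

lemma dual_dual {φ : (Fin r → ℤˣ) →* (Fin r → ℤˣ)} (hφ : ∀ g, φ (φ g) = g) (T : Finset (Fin r)) :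
    dual φ (dual φ T) = T := by
  ext i
  rw [dual, Finset.mem_filter, chi_dual, hφ, chi_mulSingle]
  by_cases hi : i ∈ T
  · simp [hi]
  · simp [hi]

section

variable {C : Over (Spec (.of k))} (ρ : (Fin r → ℤˣ) →* End C)
  {φ : (Fin r → ℤˣ) →* (Fin r → ℤˣ)} (hφ : ∀ g, φ (φ g) = g)

include hφ

lemma e_dual (T : Finset (Fin r)) : e (ρ.comp φ) T = e ρ (dual φ T) := by
  unfold e
  rw [← Equiv.sum_comp (Function.Involutive.toPerm φ hφ)
    (fun g => cq (dual φ T) g • push (ρ g : C ⟶ C))]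
  refine Finset.sum_congr rfl fun g _ => ?_
  rw [Function.Involutive.coe_toPerm, cq_dual, hφ]
  rfl

lemma norm_dual (T : Finset (Fin r)) (D : Pt C →₀ ℤ) :
    norm (ρ.comp φ) T D = norm ρ (dual φ T) D := by
  unfold norm
  rw [Finset.sum_filter, Finset.sum_filter,
    ← Equiv.sum_comp (Function.Involutive.toPerm φ hφ) (fun g =>
      if chi (dual φ T) g = 1 then D.mapDomain fun x => x ≫ (ρ g : C ⟶ C) else 0)]
  refine Finset.sum_congr rfl fun g _ => ?_
  rw [Function.Involutive.coe_toPerm, chi_dual, hφ]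
  rfl

lemma effective_dual [Curve C] {T : Finset (Fin r)} {γ : ℕ} (h : Effective ρ (dual φ T) γ) :
    Effective (ρ.comp φ) T γ := by
  intro D hD
  obtain ⟨E, hE, f, hf, h2⟩ := h D hD
  refine ⟨E, hE, f, hf, fun x => ?_⟩
  rw [h2, norm_dual ρ hφ, norm_dual ρ hφ]

end

end Pool.Agent.Run7.h780.VQ
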