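import Pool.Agent.Run7.h780.VQ.Blk

/-!
# Voisin's conjecture for quotients of products of curves by `(ℤ/2)^r`
-/

set_option autoImplicit false

open CategoryTheory CategoryTheory.Limits AlgebraicGeometry

universe u

namespace Pool.Agent.Run7.h780.VQ

open Run7.h220.ZC Run7.h220.Comb

variable {k : Type u} [Field k] {r : ℕ}

section

variable {C₁ C₂ S : Over (Spec (.of k))} {q : C₁ ⨯ C₂ ⟶ S}
  {ρ₁ : (Fin r → ℤˣ) →* End C₁} {ρ₂ : (Fin r → ℤˣ) →* End C₂}

lemma bilin_ext {P Q M : Type*} [AddCommGroup M] [Module ℚ M]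
    {f g : (P →₀ ℚ) →ₗ[ℚ] (Q →₀ ℚ) →ₗ[ℚ] M}
    (h : ∀ x y, f (Finsupp.single x 1) (Finsupp.single y 1) =
      g (Finsupp.single x 1) (Finsupp.single y 1)) : f = g := by
  refine Finsupp.lhom_ext fun x c => Finsupp.lhom_ext fun y d => ?_
  have hx : (Finsupp.single x c : P →₀ ℚ) = c • Finsupp.single x 1 := by simp
  have hy : (Finsupp.single y d : Q →₀ ℚ) = d • Finsupp.single y 1 := by simp
  rw [hx, hy]
  simp only [map_smul, LinearMap.smul_apply]
  rw [h]

lemma be_inv (hq : ∀ g, prod.map (ρ₁ g : C₁ ⟶ C₁) (ρ₂ g : C₂ ⟶ C₂) ≫ q = q) (g : Fin r → ℤˣ)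
    (D : ZeroCycle C₁) (D' : ZeroCycle C₂) :
    be q (push (ρ₁ g : C₁ ⟶ C₁) D) (push (ρ₂ g : C₂ ⟶ C₂) D') = be q D D' := by
  have h : (be q).compl₁₂ (push (ρ₁ g : C₁ ⟶ C₁)) (push (ρ₂ g : C₂ ⟶ C₂)) = be q := by
    refine bilin_ext fun x y => ?_
    rw [LinearMap.compl₁₂_apply, push_single, push_single, be_single, be_single]
    congr 1
    conv_rhs => rw [← hq g, ← Category.assoc, prod.lift_map]
  exact LinearMap.congr_fun₂ h D D'

lemma sum_be (hq : ∀ g, prod.map (ρ₁ g : C₁ ⟶ C₁) (ρ₂ g : C₂ ⟶ C₂) ≫ q = q)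
    (D : ZeroCycle C₁) (D' : ZeroCycle C₂) :
    ∑ T : Finset (Fin r), be q (e ρ₁ T D) (e ρ₂ T D') = ((2 : ℚ) ^ r * 2 ^ r) • be q D D' := by
  have h1 : ∀ T : Finset (Fin r), be q (e ρ₁ T D) (e ρ₂ T D') =
      ∑ g, ∑ h, cq T (g * h) • be q (push (ρ₁ g : C₁ ⟶ C₁) D) (push (ρ₂ h : C₂ ⟶ C₂) D') := by
    intro T
    rw [e_apply, e_apply]
    simp only [map_sum, LinearMap.sum_apply, map_smul, LinearMap.smul_apply, Finset.smul_sum,
      smul_smul, cq_mul]
    rw [Finset.sum_comm]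
    refine Finset.sum_congr rfl fun g _ => Finset.sum_congr rfl fun h _ => ?_
    congr 1
    ring
  rw [Finset.sum_congr rfl fun T _ => h1 T, Finset.sum_comm]
  have h2 : ∀ g : Fin r → ℤˣ, ∑ T : Finset (Fin r), ∑ h, cq T (g * h) •
      be q (push (ρ₁ g : C₁ ⟶ C₁) D) (push (ρ₂ h : C₂ ⟶ C₂) D') = (2 : ℚ) ^ r • be q D D' := by
    intro g
    rw [Finset.sum_comm]
    simp only [← Finset.sum_smul, sum_chi]
    rw [Finset.sum_eq_single g]
    · rw [if_pos (sq_one g), be_inv hq]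
    · intro h _ hne
      rw [if_neg, zero_smul]
      intro h3
      apply hne
      have h4 : g * (g * h) = g := by rw [h3, mul_one]
      rwa [← mul_assoc, sq_one, one_mul] at h4
    · intro h
      exact absurd (Finset.mem_univ _) h
  rw [Finset.sum_congr rfl fun g _ => h2 g, Finset.sum_const, Finset.card_univ, Fintype.card_fun,
    Fintype.card_units_int, Fintype.card_fin, ← Nat.cast_smul_eq_nsmul ℚ, smul_smul]
  push_cast
  rfl

/-- The alternating sum of the external products. -/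
noncomputable def Alt (S : Over (Spec (.of k))) (n : ℕ) : MultilinearMap ℚ
    (fun _ : Fin n => ZeroCycle S)
    (ZeroCycle (∏ᶜ fun _ : Fin n => S) ⧸ ratZero (∏ᶜ fun _ : Fin n => S)) :=
  ∑ σ : Equiv.Perm (Fin n), ((Equiv.Perm.sign σ : ℤ) : ℚ) • (E S n).domDomCongr σ

lemma Alt_apply {n : ℕ} (b : Fin n → ZeroCycle S) : Alt S n b =
    ∑ σ : Equiv.Perm (Fin n), ((Equiv.Perm.sign σ : ℤ) : ℚ) • E S n fun i => b (σ i) := by
  unfold Alt
  rw [_root_.sum_apply]
  rfl

/-- The alternating sum is zero if more than `γ₁ γ₂` of the cycles are in the part of one character. -/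
theorem alt_zero [IsAlgClosed k] [Curve C₁] [Curve C₂] {T : Finset (Fin r)} {γ₁ γ₂ : ℕ}
    (h₁ : Effective ρ₁ T γ₁) (h₂ : Effective ρ₂ T γ₂) {w₁ : Pt C₁} {w₂ : Pt C₂}
    (hw₁ : e ρ₁ T (Finsupp.single w₁ 1) = 0) (hw₂ : e ρ₂ T (Finsupp.single w₂ 1) = 0)
    {n m : ℕ} (hm : γ₁ * γ₂ < m) (φ : Fin m ↪ Fin n) (b : Fin n → ZeroCycle S)
    (x : Fin m → Pt C₁) (y : Fin m → Pt C₂)
    (hb : ∀ i, b (φ i) = be q (e ρ₁ T (Finsupp.single (x i) 1)) (e ρ₂ T (Finsupp.single (y i) 1))) :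
    Alt S n b = 0 := by
  classical
  let v : Equiv.Perm (Fin m) → Equiv.Perm (Fin n) := fun π => π.viaFintypeEmbedding φ
  have hv : ∀ π, Equiv.Perm.sign (v π) = Equiv.Perm.sign π := fun π =>
    Equiv.Perm.viaFintypeEmbedding_sign π φ
  have e1 : ∀ π : Equiv.Perm (Fin m), Alt S n b = ∑ σ : Equiv.Perm (Fin n),
      ((Equiv.Perm.sign σ : ℤ) : ℚ) • ((Equiv.Perm.sign π : ℤ) : ℚ) •
        E S n fun i => b (v π (σ i)) := by
    intro π
    rw [Alt_apply, ← Equiv.sum_comp (Equiv.mulLeft (v π))]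
    refine Finset.sum_congr rfl fun σ _ => ?_
    rw [Equiv.coe_mulLeft, Equiv.Perm.sign_mul, hv, smul_smul]
    congr 1
    push_cast
    ring
  have e2 : ∀ σ : Equiv.Perm (Fin n), ∑ π : Equiv.Perm (Fin m), ((Equiv.Perm.sign π : ℤ) : ℚ) •
      E S n (fun i => b (v π (σ i))) = 0 := by
    intro σ
    let ψ : Fin m ↪ Fin n := φ.trans σ.symm.toEmbedding
    have hG₁ := geoC_plug (geoC_E (C := C₁) (S := S) n) ψ fun i => b (σ i)
    have hG₂ := geoC_plug (geoC_E (C := C₂) (S := S) n) ψ fun i => b (σ i)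
    rw [← block q ρ₁ ρ₂ h₁ h₂ hw₁ hw₂ hm hG₁ hG₂ x y]
    refine Finset.sum_congr rfl fun π _ => ?_
    congr 1
    rw [plug_apply]
    congr 1
    funext i
    split_ifs with h
    · obtain ⟨j, rfl⟩ := h
      have h3 : (Equiv.ofInjective ψ ψ.injective).symm ⟨ψ j, ⟨j, rfl⟩⟩ = j :=
        Equiv.ofInjective_symm_apply ψ.injective j
      rw [h3, ← hb]
      have h4 : σ (ψ j) = φ j := by simp [ψ]
      rw [h4]
      congr 1
      exact Equiv.Perm.viaFintypeEmbedding_apply_image π φ j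
    · have h4 : σ i ∉ Set.range φ := by
        rintro ⟨j, hj⟩
        apply h
        refine ⟨j, ?_⟩
        simp [ψ, hj]
      congr 1
      exact Equiv.Perm.viaFintypeEmbedding_apply_notMem_range π φ h4
  have e3 : (Fintype.card (Equiv.Perm (Fin m)) : ℚ) • Alt S n b = 0 := by
    have e4 : (Fintype.card (Equiv.Perm (Fin m)) : ℚ) • Alt S n b =
        ∑ _π : Equiv.Perm (Fin m), Alt S n b := by
      rw [Finset.sum_const, Finset.card_univ, Nat.cast_smul_eq_nsmul]
    rw [e4, Finset.sum_congr rfl fun π _ => e1 π, Finset.sum_comm]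
    refine Finset.sum_eq_zero fun σ _ => ?_
    rw [← Finset.smul_sum, e2, smul_zero]
  exact (smul_eq_zero.1 e3).resolve_left (Nat.cast_ne_zero.2 Fintype.card_ne_zero)

/-- The part of the character `χ_T` of the point `s`. -/
noncomputable def bt (q : C₁ ⨯ C₂ ⟶ S) (ρ₁ : (Fin r → ℤˣ) →* End C₁) (ρ₂ : (Fin r → ℤˣ) →* End C₂)
    (T : Finset (Fin r)) (s : Pt (C₁ ⨯ C₂)) : ZeroCycle S :=
  be q (e ρ₁ T (Finsupp.single (s ≫ prod.fst) 1)) (e ρ₂ T (Finsupp.single (s ≫ prod.snd) 1))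

lemma be_mem_left {D : ZeroCycle C₁} (hD : D ∈ ratZero C₁) (c : ZeroCycle C₂) :
    be q D c ∈ ratZero S := by
  induction c using Finsupp.induction_linear with
  | zero => rw [map_zero]; exact Submodule.zero_mem _
  | add z z' h h' => rw [map_add]; exact Submodule.add_mem _ h h'
  | single y c =>
    have h1 : be q D (Finsupp.single y c) = c • push (prod.lift (𝟙 C₁) (cst C₁ y) ≫ q) D := by
      have h2 : (be q).flip (Finsupp.single y c) = c • push (prod.lift (𝟙 C₁) (cst C₁ y) ≫ q) := by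
        refine Finsupp.lhom_ext fun x d => ?_
        have hx : (Finsupp.single x d : ZeroCycle C₁) = d • Finsupp.single x 1 := by simp
        have hy : (Finsupp.single y c : ZeroCycle C₂) = c • Finsupp.single y 1 := by simp
        rw [hx, hy]
        simp only [map_smul, LinearMap.smul_apply, LinearMap.flip_apply]
        rw [be_single, push_single, ← Category.assoc, prod.comp_lift, comp_cst, Category.comp_id]
      exact LinearMap.congr_fun h2 D
    rw [h1]
    exact Submodule.smul_mem _ _ (push_mem _ hD)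

lemma be_mem_right {D : ZeroCycle C₂} (hD : D ∈ ratZero C₂) (c : ZeroCycle C₁) :
    be q c D ∈ ratZero S := by
  induction c using Finsupp.induction_linear with
  | zero => rw [map_zero, LinearMap.zero_apply]; exact Submodule.zero_mem _
  | add z z' h h' => rw [map_add, LinearMap.add_apply]; exact Submodule.add_mem _ h h'
  | single x c =>
    have h1 : be q (Finsupp.single x c) D = c • push (prod.lift (cst C₂ x) (𝟙 C₂) ≫ q) D := by
      have h2 : be q (Finsupp.single x c) = c • push (prod.lift (cst C₂ x) (𝟙 C₂) ≫ q) := by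
        refine Finsupp.lhom_ext fun y d => ?_
        have hx : (Finsupp.single x c : ZeroCycle C₁) = c • Finsupp.single x 1 := by simp
        have hy : (Finsupp.single y d : ZeroCycle C₂) = d • Finsupp.single y 1 := by simp
        rw [hx, hy]
        simp only [map_smul, LinearMap.smul_apply]
        rw [be_single, push_single, ← Category.assoc, prod.comp_lift, comp_cst, Category.comp_id,
          smul_comm]
      exact LinearMap.congr_fun h2 D
    rw [h1]
    exact Submodule.smul_mem _ _ (push_mem _ hD)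

/-- If the quotient is rational, the orbits of any two points are rationally equivalent. -/
lemma orbit_mem {C : Over (Spec (.of k))} [Curve C] {ρ : (Fin r → ℤˣ) →* End C}
    (h : Effective ρ ∅ 0) (x y : Pt C) :
    e ρ ∅ (Finsupp.single x 1) - e ρ ∅ (Finsupp.single y 1) ∈ ratZero C := by
  have hdeg : ((Finsupp.single x 1 - Finsupp.single y 1 : Pt C →₀ ℤ).sum fun _ n => n) = 0 := by
    have h1 := map_sub (Finsupp.liftAddHom (fun _ : Pt C => AddMonoidHom.id ℤ))
      (Finsupp.single x 1) (Finsupp.single y 1)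
    simp only [AddMonoidHom.id_apply, Finsupp.liftAddHom_apply_single] at h1
    rw [Finsupp.liftAddHom_apply] at h1
    exact h1.trans (sub_self 1)
  obtain ⟨E, hE, f, hf0, hf⟩ := h (Finsupp.single x 1 - Finsupp.single y 1) (by rw [hdeg]; rfl)
  obtain ⟨N, p, rfl⟩ := exists_points E hE
  have h1 : nm ρ ∅ (∑ j, Finsupp.single (p j) 1 - (Finsupp.single x 1 - Finsupp.single y 1)) ∈
      ratZero C := by
    have h2 : nm ρ ∅ (∑ j, Finsupp.single (p j) 1 - (Finsupp.single x 1 - Finsupp.single y 1)) =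
        toQ (norm ρ ∅ (∑ j, Finsupp.single (p j) 1)) -
          toQ (norm ρ ∅ (Finsupp.single x 1 - Finsupp.single y 1)) := by
      rw [toQ_norm, toQ_norm, ← map_sub]
      congr 1
      simp
    rw [h2]
    refine Submodule.subset_span ⟨C, inferInstance, 𝟙 C, _, ⟨f, hf0, fun z => ?_⟩, (push_id _).symm⟩
    rw [Finsupp.sub_apply, toQ_apply, toQ_apply, hf]
    push_cast
    rfl
  by_cases hN : N = 0
  · subst hN
    rw [Fin.sum_univ_zero, zero_sub, map_neg, map_sub, nm_empty, nm_empty] at h1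
    have h2 := Submodule.neg_mem _ h1
    rwa [neg_neg] at h2
  · have hpt : ∀ z : Pt C, (Finsupp.single z 1 : Pt C →₀ ℚ) ∈ ratZero C := by
      intro z
      have h3 := push_mem (cst C z) h1
      have h5 : ∀ X : ZeroCycle C, push (cst C z) (nm ρ ∅ X) =
          (kc (∅ : Finset (Fin r)) : ℚ) • push (cst C z) X := by
        intro X
        rw [nm_apply, map_sum]
        have e3 : ∀ g ∈ Finset.univ.filter (fun g : Fin r → ℤˣ => chi ∅ g = 1),
            push (cst C z) (push (ρ g : C ⟶ C) X) = push (cst C z) X := by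
          intro g _
          rw [← push_comp, comp_cst']
        rw [Finset.sum_congr rfl e3, Finset.sum_const, kc, Nat.cast_smul_eq_nsmul]
      rw [h5] at h3
      have h3' := (Submodule.smul_mem_iff _ (Nat.cast_ne_zero.2 (kc_pos ∅).ne')).1 h3
      rw [map_sub, map_sub, map_sum] at h3'
      simp only [push_single, comp_cst, Finset.sum_const, Finset.card_univ, Fintype.card_fin,
        sub_self, sub_zero] at h3'
      rw [← Nat.cast_smul_eq_nsmul ℚ] at h3'
      exact (Submodule.smul_mem_iff _ (Nat.cast_ne_zero.2 hN)).1 h3'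
    rw [e_apply, e_apply]
    refine Submodule.sub_mem _ (Submodule.sum_mem _ fun g _ => Submodule.smul_mem _ _ ?_)
      (Submodule.sum_mem _ fun g _ => Submodule.smul_mem _ _ ?_)
    · rw [push_single]; exact hpt _
    · rw [push_single]; exact hpt _

/-- A zero-cycle of degree zero on the quotient. -/
lemma sub_lin_bt [Curve C₁] [Curve C₂]
    (hq : ∀ g, prod.map (ρ₁ g : C₁ ⟶ C₁) (ρ₂ g : C₂ ⟶ C₂) ≫ q = q)
    (h₁ : Effective ρ₁ ∅ 0) (h₂ : Effective ρ₂ ∅ 0) (p : Pt (C₁ ⨯ C₂)) {a : ZeroCycle (C₁ ⨯ C₂)}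
    (ha : a.sum (fun _ c => c) = 0) :
    push q a - ((2 : ℚ) ^ r * 2 ^ r)⁻¹ •
      lin (fun s => ∑ T ∈ Finset.univ.erase ∅, bt q ρ₁ ρ₂ T s) a ∈ ratZero S := by
  have hc : ((2 : ℚ) ^ r * 2 ^ r) ≠ 0 := by positivity
  have e1 : push q a = ((2 : ℚ) ^ r * 2 ^ r)⁻¹ • lin (fun s => ∑ T, bt q ρ₁ ρ₂ T s) a := by
    have h3 : push q = ((2 : ℚ) ^ r * 2 ^ r)⁻¹ • lin (fun s => ∑ T, bt q ρ₁ ρ₂ T s) := by
      refine Finsupp.lhom_ext fun s c => ?_
      have hs : (Finsupp.single s c : ZeroCycle (C₁ ⨯ C₂)) = c • Finsupp.single s 1 := by simp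
      rw [hs, map_smul, map_smul, LinearMap.smul_apply, lin_single, push_single]
      congr 1
      unfold bt
      rw [sum_be hq, smul_smul, inv_mul_cancel₀ hc, one_smul, be_single]
      congr 1
      rw [← prod.comp_lift, prod.lift_fst_snd, Category.comp_id]
    rw [h3, LinearMap.smul_apply]
  have e2 : lin (fun s => ∑ T, bt q ρ₁ ρ₂ T s) a = lin (bt q ρ₁ ρ₂ ∅) a +
      lin (fun s => ∑ T ∈ Finset.univ.erase ∅, bt q ρ₁ ρ₂ T s) a := by
    rw [← lin_add]
    congr 2
    funext s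
    exact (Finset.add_sum_erase Finset.univ (fun T => bt q ρ₁ ρ₂ T s) (Finset.mem_univ ∅)).symm
  have e3 : lin (bt q ρ₁ ρ₂ ∅) a ∈ ratZero S := by
    have h3 : ∀ s, bt q ρ₁ ρ₂ ∅ s - bt q ρ₁ ρ₂ ∅ p ∈ ratZero S := by
      intro s
      unfold bt
      have h4 : be q (e ρ₁ ∅ (Finsupp.single (s ≫ prod.fst) 1))
          (e ρ₂ ∅ (Finsupp.single (s ≫ prod.snd) 1)) -
          be q (e ρ₁ ∅ (Finsupp.single (p ≫ prod.fst) 1))
          (e ρ₂ ∅ (Finsupp.single (p ≫ prod.snd) 1)) =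
          be q (e ρ₁ ∅ (Finsupp.single (s ≫ prod.fst) 1) - e ρ₁ ∅ (Finsupp.single (p ≫ prod.fst) 1))
            (e ρ₂ ∅ (Finsupp.single (s ≫ prod.snd) 1)) +
          be q (e ρ₁ ∅ (Finsupp.single (p ≫ prod.fst) 1))
            (e ρ₂ ∅ (Finsupp.single (s ≫ prod.snd) 1) -
              e ρ₂ ∅ (Finsupp.single (p ≫ prod.snd) 1)) := by
        rw [map_sub (be q), LinearMap.sub_apply, map_sub]
        abel
      rw [h4]
      exact Submodule.add_mem _ (be_mem_left (orbit_mem h₁ _ _) _)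
        (be_mem_right (orbit_mem h₂ _ _) _)
    have h5 : lin (bt q ρ₁ ρ₂ ∅) a = a.sum fun s c => c • (bt q ρ₁ ρ₂ ∅ s - bt q ρ₁ ρ₂ ∅ p) := by
      simp only [smul_sub]
      rw [Finsupp.sum_sub, lin, Finsupp.linearCombination_apply]
      have h6 : (a.sum fun _ c => c • bt q ρ₁ ρ₂ ∅ p) = (a.sum fun _ c => c) • bt q ρ₁ ρ₂ ∅ p := by
        rw [Finsupp.sum, Finsupp.sum, Finset.sum_smul]
      rw [h6, ha, zero_smul, sub_zero]
    rw [h5]
    exact Submodule.sum_mem _ fun s _ => Submodule.smul_mem _ _ (h3 s)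
  rw [e1, e2, smul_add, add_sub_cancel_right]
  exact Submodule.smul_mem _ _ e3

/-- **Voisin's conjecture for quotients of products of curves by `(ℤ/2)^r`.** -/
theorem voisin_quot [IsAlgClosed k] [Curve C₁] [Curve C₂]
    (hq : ∀ g, prod.map (ρ₁ g : C₁ ⟶ C₁) (ρ₂ g : C₂ ⟶ C₂) ≫ q = q)
    (γ₁ γ₂ : Finset (Fin r) → ℕ)
    (h₁ : ∀ T, Effective ρ₁ T (γ₁ T)) (h₂ : ∀ T, Effective ρ₂ T (γ₂ T))
    (z₁ : γ₁ ∅ = 0) (z₂ : γ₂ ∅ = 0)
    (w₁ : ∀ T, T.Nonempty → Ramified ρ₁ T) (w₂ : ∀ T, T.Nonempty → Ramified ρ₂ T)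
    {n : ℕ} (hn : ∑ T ∈ Finset.univ.erase ∅, γ₁ T * γ₂ T < n)
    (a : Fin n → ZeroCycle (C₁ ⨯ C₂)) (ha : ∀ i, (a i).sum (fun _ c => c) = 0) :
    ∑ σ : Equiv.Perm (Fin n), ((Equiv.Perm.sign σ : ℤ) : ℚ) • ext (fun i => push q (a (σ i))) ∈
      ratZero (∏ᶜ fun _ : Fin n => S) := by
  classical
  rw [← cls_eq_zero, map_sum]
  simp only [map_smul, ← E_eq]
  by_cases hne : Nonempty (Pt (C₁ ⨯ C₂))
  · obtain ⟨p⟩ := hne
    set c : ℚ := ((2 : ℚ) ^ r * 2 ^ r)⁻¹ with hc
    set W : Pt (C₁ ⨯ C₂) → ZeroCycle S := fun s => ∑ T ∈ Finset.univ.erase ∅, bt q ρ₁ ρ₂ T s with hW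
    have e1 : ∀ σ : Equiv.Perm (Fin n), E S n (fun i => push q (a (σ i))) =
        E S n (fun i => c • lin W (a (σ i))) := fun σ =>
      (compat_E _ n).congr fun i => sub_lin_bt hq (z₁ ▸ h₁ ∅) (z₂ ▸ h₂ ∅) p (ha _)
    simp only [e1]
    have hT : (Alt S n).compLinearMap (fun _ => c • lin W) = 0 := by
      refine mext_unique fun s => ?_
      rw [MultilinearMap.compLinearMap_apply, _root_.zero_apply]
      simp only [LinearMap.smul_apply, lin_single]
      rw [MultilinearMap.map_smul_univ (Alt S n) (fun _ => c) (fun i => W (s i)), hW,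
        MultilinearMap.map_sum_finset]
      refine smul_eq_zero_of_right _ (Finset.sum_eq_zero fun t ht => ?_)
      rw [Fintype.mem_piFinset] at ht
      -- a character with many positions
      obtain ⟨T, hT0, hT⟩ : ∃ T ∈ (Finset.univ.erase ∅ : Finset (Finset (Fin r))),
          γ₁ T * γ₂ T < (Finset.univ.filter fun i => t i = T).card := by
        by_contra hcon
        push Not at hcon
        have h3 := Finset.card_eq_sum_card_fiberwise (s := (Finset.univ : Finset (Fin n)))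
          (f := t) (t := Finset.univ.erase ∅) (fun i _ => ht i)
        rw [Finset.card_univ, Fintype.card_fin] at h3
        have h4 := Finset.sum_le_sum hcon
        omega
      have hT1 : T.Nonempty := Finset.nonempty_iff_ne_empty.2 (Finset.ne_of_mem_erase hT0)
      obtain ⟨v₁, g₁, hg₁, hv₁⟩ := w₁ T hT1
      obtain ⟨v₂, g₂, hg₂, hv₂⟩ := w₂ T hT1
      let φ : Fin (Finset.univ.filter fun i => t i = T).card ↪ Fin n :=
        ((Finset.univ.filter fun i => t i = T).orderEmbOfFin rfl).toEmbedding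
      have hφ : ∀ i, t (φ i) = T := fun i =>
        (Finset.mem_filter.1 ((Finset.univ.filter fun i => t i = T).orderEmbOfFin_mem rfl i)).2
      refine alt_zero (q := q) (h₁ T) (h₂ T) (e_ramified ρ₁ hg₁ hv₁) (e_ramified ρ₂ hg₂ hv₂) hT φ _
        (fun i => s (φ i) ≫ prod.fst) (fun i => s (φ i) ≫ prod.snd) fun i => ?_
      simp only [bt, hφ]
    have h4 : ((Alt S n).compLinearMap (fun _ => c • lin W)) a = 0 := by
      rw [hT, _root_.zero_apply]
    rw [MultilinearMap.compLinearMap_apply, Alt_apply] at h4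
    rw [← h4]
    rfl
  · refine Finset.sum_eq_zero fun σ _ => ?_
    have h5 : a (σ ⟨0, by omega⟩) = 0 := by
      ext x
      exact absurd ⟨x⟩ hne
    rw [(E S n).map_coord_zero ⟨0, by omega⟩ (by rw [h5, map_zero]), smul_zero]

end

end Pool.Agent.Run7.h780.VQ
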