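import Pool.Agent.Run7.h780.VQ.Dual
import Pool.Agent.Run7.h780.VQ.Anti
import Pool.Agent.Run7.h220.ZCSym

/-!
# Voisin's conjecture for mixed quotients of the square of a curve
-/

set_option autoImplicit false

open CategoryTheory CategoryTheory.Limits AlgebraicGeometry

universe u

namespace Pool.Agent.Run7.h780.VQ

open Run7.h220.ZC Run7.h220.Comb

variable {k : Type u} [Field k] {r : ℕ}

section compat

variable {C S : Over (Spec (.of k))} {ρ : (Fin r → ℤˣ) →* End C}

/-- Functions of the points which are invariant under the kernel of `χ_T` and are combinations of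
morphisms. -/
lemma lin_geo {T : Finset (Fin r)} {κ V : Type*} [AddCommGroup V] [Module ℚ V]
    {G : MultilinearMap ℚ (fun _ : κ => ZeroCycle S) V} (hG : GeoC C G)
    (A : κ → Pt C → ZeroCycle S) (h1 : ∀ i, A i ∈ Geo C S)
    (h2 : ∀ i g x, chi T g = 1 → A i (x ≫ (ρ g : C ⟶ C)) = A i x) {D : ZeroCycle C}
    (hD : D ∈ Lq ρ T) : lin (fun x => G fun i => A i x) D = 0 := by
  have e1 : lin (fun x => G fun i => A i x) (nm ρ T D) = 0 := hG A h1 _ hD
  have e2 : lin (fun x => G fun i => A i x) (nm ρ T D) =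
      (kc T : ℚ) • lin (fun x => G fun i => A i x) D := by
    rw [nm_apply, map_sum]
    have e3 : ∀ g ∈ Finset.univ.filter (fun g : Fin r → ℤˣ => chi T g = 1),
        lin (fun x => G fun i => A i x) (push (ρ g : C ⟶ C) D) =
          lin (fun x => G fun i => A i x) D := by
      intro g hg
      rw [lin_push']
      congr 2
      funext x
      congr 1
      funext i
      exact h2 i g x (Finset.mem_filter.1 hg).2
    rw [Finset.sum_congr rfl e3, Finset.sum_const, kc, Nat.cast_smul_eq_nsmul]
  rw [e1] at e2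
  exact (smul_eq_zero.1 e2.symm).resolve_left (Nat.cast_ne_zero.2 (kc_pos T).ne')

end compat

section mixed

variable {C S : Over (Spec (.of k))} (q : C ⨯ C ⟶ S) (ρ : (Fin r → ℤˣ) →* End C)

/-- The product of the parts of the character `χ_T`. -/
noncomputable def bb (T : Finset (Fin r)) : ZeroCycle C →ₗ[ℚ] ZeroCycle C →ₗ[ℚ] ZeroCycle S :=
  (be q).compl₁₂ (e ρ T) (e ρ T)

lemma bb_apply (T : Finset (Fin r)) (D D' : ZeroCycle C) :
    bb q ρ T D D' = be q (e ρ T D) (e ρ T D') := rfl

lemma geo_diag (T : Finset (Fin r)) :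
    (fun x : Pt C => be q (e ρ T (Finsupp.single x 1)) (e ρ T (Finsupp.single x 1))) ∈ Geo C S := by
  have h : (fun x : Pt C => be q (e ρ T (Finsupp.single x 1)) (e ρ T (Finsupp.single x 1))) =
      ∑ g, ∑ h, (cq T g * cq T h) • ((fun x : Pt C =>
        (Finsupp.single (x ≫ prod.lift (ρ g : C ⟶ C) (ρ h : C ⟶ C) ≫ q) (1 : ℚ) :
          ZeroCycle S)) : Pt C → ZeroCycle S) := by
    funext x
    rw [e_apply, map_sum (be q), LinearMap.sum_apply, Finset.sum_apply]
    refine Finset.sum_congr rfl fun g _ => ?_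
    rw [map_sum, Finset.sum_apply]
    refine Finset.sum_congr rfl fun h _ => ?_
    rw [push_single, push_single, map_smul (be q), LinearMap.smul_apply, map_smul, be_single,
      smul_smul, Pi.smul_apply, ← Category.assoc, prod.comp_lift]
  rw [h]
  exact Submodule.sum_mem _ fun g _ => Submodule.sum_mem _ fun h _ =>
    Submodule.smul_mem _ _ (Submodule.subset_span ⟨_, rfl⟩)

/-- The function of `2 m` zero-cycles. -/
noncomputable def FF {V : Type*} [AddCommGroup V] [Module ℚ V] {m : ℕ}
    (G : MultilinearMap ℚ (fun _ : Fin m => ZeroCycle S) V) (T : Finset (Fin r)) :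
    MultilinearMap ℚ (fun _ : Fin m × Bool => ZeroCycle C) V :=
  pairMap G (bb q ρ T)

lemma FF_apply {V : Type*} [AddCommGroup V] [Module ℚ V] {m : ℕ}
    (G : MultilinearMap ℚ (fun _ : Fin m => ZeroCycle S) V) (T : Finset (Fin r))
    (b : Fin m × Bool → ZeroCycle C) :
    FF q ρ G T b = G fun i => bb q ρ T (b (i, false)) (b (i, true)) := rfl

lemma compat_FF {V : Type*} [AddCommGroup V] [Module ℚ V] {m : ℕ}
    {G : MultilinearMap ℚ (fun _ : Fin m => ZeroCycle S) V} (hG : GeoC C G)
    (T : Finset (Fin r)) : Compat (Lq ρ T) (FF q ρ G T) := by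
  intro h D hD
  have hinv : ∀ (o : Option (Pt C)) (g : Fin r → ℤˣ) (x : Pt C), chi T g = 1 →
      e ρ T (Finsupp.single (o.getD (x ≫ (ρ g : C ⟶ C))) 1) =
        e ρ T (Finsupp.single (o.getD x) 1) := by
    intro o g x hg
    rcases o with _ | p
    · exact e_inv ρ hg x
    · rfl
  refine lin_geo (ρ := ρ) (T := T) hG (fun i x => bb q ρ T
    (Finsupp.single ((h (i, false)).getD x) 1) (Finsupp.single ((h (i, true)).getD x) 1))
    (fun i => ?_) (fun i g x hg => ?_) hD
  · simp only [bb_apply]
    rcases h (i, false) with _ | p <;> rcases h (i, true) with _ | p' <;>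
      simp only [Option.getD_none, Option.getD_some]
    · exact geo_diag q ρ T
    · exact geo_e_left q ρ T (e ρ T (Finsupp.single p' 1))
    · exact geo_e_right q ρ T (e ρ T (Finsupp.single p 1))
    · exact geo_const (be q (e ρ T (Finsupp.single p 1)) (e ρ T (Finsupp.single p' 1)))
  · simp only [bb_apply]
    rw [hinv _ g x hg, hinv _ g x hg]

lemma FF_congr {V : Type*} [AddCommGroup V] [Module ℚ V] {m : ℕ}
    (G : MultilinearMap ℚ (fun _ : Fin m => ZeroCycle S) V) (T : Finset (Fin r))
    {b b' : Fin m × Bool → ZeroCycle C} (h : ∀ i, e ρ T (b i) = e ρ T (b' i)) :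
    FF q ρ G T b = FF q ρ G T b' := by
  rw [FF_apply, FF_apply]
  congr 1
  funext i
  rw [bb_apply, bb_apply, h, h]

/-- The bound for a character which is fixed by the automorphism. -/
def bd (γ : ℕ) (c : ℤˣ) : ℕ := if c = 1 then γ.choose 2 else (γ + 1).choose 2

/-- The alternating sum of many products of pairs in the part of one character is zero. -/
theorem block_mixed [IsAlgClosed k] [Curve C] {T : Finset (Fin r)} {γ : ℕ}
    (h : Effective ρ T γ) {w : Pt C} (hw : e ρ T (Finsupp.single w 1) = 0) (c : ℤˣ)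
    (hc : ∀ D D', bb q ρ T D D' = ((c : ℤ) : ℚ) • bb q ρ T D' D)
    {V : Type*} [AddCommGroup V] [Module ℚ V] {m : ℕ} (hm : bd γ c < m)
    {G : MultilinearMap ℚ (fun _ : Fin m => ZeroCycle S) V} (hG : GeoC C G)
    (x : Fin m × Bool → Pt C) :
    ∑ σ : Equiv.Perm (Fin m), ((Equiv.Perm.sign σ : ℤ) : ℚ) •
      G (fun i => bb q ρ T (Finsupp.single (x (σ i, false)) 1)
        (Finsupp.single (x (σ i, true)) 1)) = 0 := by
  classical
  have hu : ∀ z : Pt C, e ρ T (u w z) = e ρ T (Finsupp.single z 1) := by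
    intro z
    unfold u
    rw [map_sub, hw, sub_zero]
  have h1 : ∀ A : Finset (Fin m × Bool), A.card = γ + 1 → ∀ π : Equiv.Perm (Fin m × Bool),
      ∑ τ : Equiv.Perm A, FF q ρ G T (fun j => Finsupp.single (x ((π * Equiv.Perm.ofSubtype τ) j)) 1) =
        0 := by
    intro A hA π
    have h3 := symm_subset (o := w) (compat_FF q ρ hG T)
      (fun F hF t => symm_T h hF w t) A hA (fun j => x (π j)) (fun j => u w (x (π j)))
    rw [← h3]
    refine Finset.sum_congr rfl fun τ _ => FF_congr q ρ G T fun i => ?_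
    by_cases hi : i ∈ A
    · rw [if_pos hi, hu]; rfl
    · rw [if_neg hi, hu, Equiv.Perm.mul_apply, Equiv.Perm.ofSubtype_apply_of_not_mem _ hi]
  have h2 : ∀ (σ : Equiv.Perm (Fin m)) (ε : Fin m → Equiv.Perm Bool),
      FF q ρ G T (fun j => Finsupp.single (x (pr σ ε j)) 1) =
        (∏ i, (if ε i = 1 then (1 : ℚ) else ((c : ℤ) : ℚ))) •
          FF q ρ G T (fun j => Finsupp.single (x (pr σ 1 j)) 1) := by
    intro σ ε
    rw [FF_apply, FF_apply, ← MultilinearMap.map_smul_univ]
    congr 1
    funext i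
    simp only [pr_apply]
    have h4 : ∀ τ : Equiv.Perm Bool, bb q ρ T (Finsupp.single (x (σ i, τ false)) 1)
        (Finsupp.single (x (σ i, τ true)) 1) = (if τ = 1 then (1 : ℚ) else ((c : ℤ) : ℚ)) •
          bb q ρ T (Finsupp.single (x (σ i, false)) 1) (Finsupp.single (x (σ i, true)) 1) := by
      intro τ
      have h5 : τ = 1 ∨ τ = Equiv.swap false true := by
        revert τ
        decide
      rcases h5 with rfl | rfl
      · rw [if_pos rfl, one_smul]
        rfl
      · rw [Equiv.swap_apply_left, Equiv.swap_apply_right, if_neg (by decide)]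
        exact hc _ _
    exact h4 (ε i)
  unfold bd at hm
  split_ifs at hm with hc1
  · subst hc1
    refine Eq.trans ?_ (alt_sym hm (fun π => FF q ρ G T fun j => Finsupp.single (x (π j)) 1) h1 ?_)
    · rfl
    · intro σ ε
      rw [h2 σ ε]
      simp
  · have hc2 : c = -1 := (Int.units_eq_one_or c).resolve_left hc1
    subst hc2
    refine Eq.trans ?_ (alt_anti hm (fun π => FF q ρ G T fun j => Finsupp.single (x (π j)) 1) h1 ?_)
    · rfl
    · intro σ ε
      rw [h2 σ ε]
      congr 1
      refine Finset.prod_congr rfl fun i _ => ?_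
      have h4 : ∀ τ : Equiv.Perm Bool, (if τ = 1 then (1 : ℚ) else (((-1 : ℤˣ) : ℤ) : ℚ)) =
          ((Equiv.Perm.sign τ : ℤ) : ℚ) := by
        intro τ
        have h5 : τ = 1 ∨ τ = Equiv.swap false true := by
          revert τ
          decide
        rcases h5 with rfl | rfl
        · simp
        · rw [if_neg (by decide), Equiv.Perm.sign_swap (by decide)]
      exact h4 (ε i)

end mixed

section final

variable {C S : Over (Spec (.of k))} {q : C ⨯ C ⟶ S} {ρ : (Fin r → ℤˣ) →* End C}

/-- The alternating sum is zero if it is zero for the alternation over some of the places. -/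
theorem alt_zero_of {n m : ℕ} (φ : Fin m ↪ Fin n) (b : Fin n → ZeroCycle S)
    (hb : ∀ (ψ : Fin m ↪ Fin n) (b' : Fin n → ZeroCycle S),
      ∑ π : Equiv.Perm (Fin m), ((Equiv.Perm.sign π : ℤ) : ℚ) •
        plug (E S n) ψ b' (fun i => b (φ (π i))) = 0) :
    Alt S n b = 0 := by
  classical
  let v : Equiv.Perm (Fin m) → Equiv.Perm (Fin n) := fun π => π.viaFintypeEmbedding φ
  have hv : ∀ π, Equiv.Perm.sign (v π) = Equiv.Perm.sign π := fun π =>
    Equiv.Perm.viaFintypeEmbedding_sign π φ
  have e1 : ∀ π : Equiv.Perm (Fin m), Alt S n b = ∑ σ : Equiv.Perm (Fin n),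
      ((Equiv.Perm.sign σ : ℤ) : ℚ) • ((Equiv.Perm.sign π : ℤ) : ℚ) •
        E S n fun i => b (v π (σ i)) := by
    intro π
    rw [Alt_apply, ← Equiv.sum_comp (Equiv.mulLeft (v π))]
    refine Finset.sum_congr rfl fun σ _ => ?_
    rw [Equiv.coe_mulLeft, Equiv.Perm.sign_mul, hv, smul_smul]
    congr 1
    push_cast
    ring
  have e2 : ∀ σ : Equiv.Perm (Fin n), ∑ π : Equiv.Perm (Fin m), ((Equiv.Perm.sign π : ℤ) : ℚ) •
      E S n (fun i => b (v π (σ i))) = 0 := by
    intro σ
    let ψ : Fin m ↪ Fin n := φ.trans σ.symm.toEmbedding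
    have h5 : ∀ π : Equiv.Perm (Fin m), E S n (fun i => b (v π (σ i))) =
        plug (E S n) ψ (fun i => b (σ i)) (fun i => b (φ (π i))) := by
      intro π
      rw [plug_apply]
      congr 1
      funext i
      split_ifs with h
      · obtain ⟨j, rfl⟩ := h
        have h3 : (Equiv.ofInjective ψ ψ.injective).symm ⟨ψ j, ⟨j, rfl⟩⟩ = j :=
          Equiv.ofInjective_symm_apply ψ.injective j
        rw [h3]
        have h4 : σ (ψ j) = φ j := by simp [ψ]
        rw [h4]
        congr 1
        exact Equiv.Perm.viaFintypeEmbedding_apply_image π φ j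
      · have h4 : σ i ∉ Set.range φ := by
          rintro ⟨j, hj⟩
          apply h
          refine ⟨j, ?_⟩
          simp [ψ, hj]
        congr 1
        exact Equiv.Perm.viaFintypeEmbedding_apply_notMem_range π φ h4
    simp only [h5]
    exact hb ψ fun i => b (σ i)
  have e3 : (Fintype.card (Equiv.Perm (Fin m)) : ℚ) • Alt S n b = 0 := by
    have e4 : (Fintype.card (Equiv.Perm (Fin m)) : ℚ) • Alt S n b =
        ∑ _π : Equiv.Perm (Fin m), Alt S n b := by
      rw [Finset.sum_const, Finset.card_univ, Nat.cast_smul_eq_nsmul]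
    rw [e4, Finset.sum_congr rfl fun π _ => e1 π, Finset.sum_comm]
    refine Finset.sum_eq_zero fun σ _ => ?_
    rw [← Finset.smul_sum, e2, smul_zero]
  exact (smul_eq_zero.1 e3).resolve_left (Nat.cast_ne_zero.2 Fintype.card_ne_zero)

lemma push_e (T : Finset (Fin r)) (h : Fin r → ℤˣ) (D : ZeroCycle C) :
    push (ρ h : C ⟶ C) (e ρ T D) = cq T h • e ρ T D := by
  rw [← e_push, e_apply, e_apply, map_sum]
  refine Finset.sum_congr rfl fun g _ => ?_
  rw [map_smul, push_push, push_push, mul_comm]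

lemma be_swap {g₀ : Fin r → ℤˣ} (hs : prod.lift prod.snd (prod.fst ≫ (ρ g₀ : C ⟶ C)) ≫ q = q)
    (D D' : ZeroCycle C) : be q D D' = be q D' (push (ρ g₀ : C ⟶ C) D) := by
  have h : be q = ((be q).compl₂ (push (ρ g₀ : C ⟶ C))).flip := by
    refine bilin_ext fun x y => ?_
    rw [LinearMap.flip_apply, LinearMap.compl₂_apply, push_single, be_single, be_single]
    congr 1
    conv_lhs => rw [← hs, ← Category.assoc, prod.comp_lift, prod.lift_snd, ← Category.assoc,
      prod.lift_fst]
  exact LinearMap.congr_fun₂ h D D'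

/-- The exchange of the factors. -/
lemma be_e_swap {g₀ : Fin r → ℤˣ} (hs : prod.lift prod.snd (prod.fst ≫ (ρ g₀ : C ⟶ C)) ≫ q = q)
    (T T' : Finset (Fin r)) (D D' : ZeroCycle C) :
    be q (e ρ T D) (e ρ T' D') = cq T g₀ • be q (e ρ T' D') (e ρ T D) := by
  rw [be_swap hs, push_e, map_smul]

end final

end Pool.Agent.Run7.h780.VQ
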