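import Pool.Agent.Run7.h780.VQ.MixedMain

/-!
# Voisin's conjecture for mixed quotients of the square of a curve, with Albanese variety
-/

set_option autoImplicit false

open CategoryTheory CategoryTheory.Limits AlgebraicGeometry

universe u

namespace Pool.Agent.Run7.h780.VQ

open Run7.h220.ZC Run7.h220.Comb

variable {k : Type u} [Field k] {r : ℕ}

section

variable {C S : Over (Spec (.of k))} (q : C ⨯ C ⟶ S) (ρ : (Fin r → ℤˣ) →* End C)

/-- The alternating sum of many products of pairs in the part of one character is zero. -/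
theorem block_mixed_u [IsAlgClosed k] [Curve C] {T : Finset (Fin r)} {γ : ℕ}
    (h : Effective ρ T γ) (w : Pt C) (c : ℤˣ)
    (hc : ∀ D D', bb q ρ T D D' = ((c : ℤ) : ℚ) • bb q ρ T D' D)
    {V : Type*} [AddCommGroup V] [Module ℚ V] {m : ℕ} (hm : bd γ c < m)
    {G : MultilinearMap ℚ (fun _ : Fin m => ZeroCycle S) V} (hG : GeoC C G)
    (x : Fin m × Bool → Pt C) :
    ∑ σ : Equiv.Perm (Fin m), ((Equiv.Perm.sign σ : ℤ) : ℚ) •
      G (fun i => bb q ρ T (u w (x (σ i, false))) (u w (x (σ i, true)))) = 0 := by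
  classical
  have h1 : ∀ A : Finset (Fin m × Bool), A.card = γ + 1 → ∀ π : Equiv.Perm (Fin m × Bool),
      ∑ τ : Equiv.Perm A, FF q ρ G T (fun j => u w (x ((π * Equiv.Perm.ofSubtype τ) j))) =
        0 := by
    intro A hA π
    have h3 := symm_subset (o := w) (compat_FF q ρ hG T)
      (fun F hF t => symm_T h hF w t) A hA (fun j => x (π j)) (fun j => u w (x (π j)))
    rw [← h3]
    refine Finset.sum_congr rfl fun τ _ => FF_congr q ρ G T fun i => ?_
    by_cases hi : i ∈ A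
    · rw [if_pos hi]; rfl
    · rw [if_neg hi, Equiv.Perm.mul_apply, Equiv.Perm.ofSubtype_apply_of_not_mem _ hi]
  have h2 : ∀ (σ : Equiv.Perm (Fin m)) (ε : Fin m → Equiv.Perm Bool),
      FF q ρ G T (fun j => u w (x (pr σ ε j))) =
        (∏ i, (if ε i = 1 then (1 : ℚ) else ((c : ℤ) : ℚ))) •
          FF q ρ G T (fun j => u w (x (pr σ 1 j))) := by
    intro σ ε
    rw [FF_apply, FF_apply, ← MultilinearMap.map_smul_univ]
    congr 1
    funext i
    simp only [pr_apply]
    have h4 : ∀ τ : Equiv.Perm Bool, bb q ρ T (u w (x (σ i, τ false)))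
        (u w (x (σ i, τ true))) = (if τ = 1 then (1 : ℚ) else ((c : ℤ) : ℚ)) •
          bb q ρ T (u w (x (σ i, false))) (u w (x (σ i, true))) := by
      intro τ
      have h5 : τ = 1 ∨ τ = Equiv.swap false true := by
        revert τ
        decide
      rcases h5 with rfl | rfl
      · rw [if_pos rfl, one_smul]
        rfl
      · rw [Equiv.swap_apply_left, Equiv.swap_apply_right, if_neg (by decide)]
        exact hc _ _
    exact h4 (ε i)
  unfold bd at hm
  split_ifs at hm with hc1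
  · subst hc1
    refine Eq.trans ?_ (alt_sym hm (fun π => FF q ρ G T fun j => u w (x (π j))) h1 ?_)
    · rfl
    · intro σ ε
      rw [h2 σ ε]
      simp
  · have hc2 : c = -1 := (Int.units_eq_one_or c).resolve_left hc1
    subst hc2
    refine Eq.trans ?_ (alt_anti hm (fun π => FF q ρ G T fun j => u w (x (π j))) h1 ?_)
    · rfl
    · intro σ ε
      rw [h2 σ ε]
      congr 1
      refine Finset.prod_congr rfl fun i _ => ?_
      have h4 : ∀ τ : Equiv.Perm Bool, (if τ = 1 then (1 : ℚ) else (((-1 : ℤˣ) : ℤ) : ℚ)) =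
          ((Equiv.Perm.sign τ : ℤ) : ℚ) := by
        intro τ
        have h5 : τ = 1 ∨ τ = Equiv.swap false true := by
          revert τ
          decide
        rcases h5 with rfl | rfl
        · simp
        · rw [if_neg (by decide), Equiv.Perm.sign_swap (by decide)]
      exact h4 (ε i)

/-- The part of the character `χ_T` of the point `s`, with respect to the base points `w`. -/
noncomputable def btu (φ : (Fin r → ℤˣ) →* (Fin r → ℤˣ)) (w : Finset (Fin r) → Pt C)
    (T : Finset (Fin r)) (s : Pt (C ⨯ C)) : ZeroCycle S :=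
  be q (e ρ T (u (w T) (s ≫ prod.fst))) (e ρ (dual φ T) (u (w (dual φ T)) (s ≫ prod.snd)))

end

section

variable {C S : Over (Spec (.of k))} {q : C ⨯ C ⟶ S} {ρ : (Fin r → ℤˣ) →* End C}

lemma e_u {T : Finset (Fin r)} {w : Pt C} (hw : e ρ T (Finsupp.single w 1) = 0) (x : Pt C) :
    e ρ T (u w x) = e ρ T (Finsupp.single x 1) := by
  unfold u
  rw [map_sub, hw, sub_zero]

lemma dual_ne_empty {φ : (Fin r → ℤˣ) →* (Fin r → ℤˣ)} (hφ : ∀ g, φ (φ g) = g)
    {T : Finset (Fin r)} (hT : T ≠ ∅) : dual φ T ≠ ∅ := by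
  intro h
  have h2 := dual_dual hφ T
  rw [h, dual_empty] at h2
  exact hT h2.symm

lemma btu_eq {φ : (Fin r → ℤˣ) →* (Fin r → ℤˣ)} (hφ : ∀ g, φ (φ g) = g)
    {w : Finset (Fin r) → Pt C} (hw : ∀ T, T ≠ ∅ → e ρ T (Finsupp.single (w T) 1) = 0)
    {T : Finset (Fin r)} (hT : T ≠ ∅) (s : Pt (C ⨯ C)) :
    btu q ρ φ w T s = bt q ρ (ρ.comp φ) T s := by
  rw [bt_eq hφ]
  unfold btu
  rw [e_u (hw T hT), e_u (hw _ (dual_ne_empty hφ hT))]

/-- Many places with a character `χ_T` which is fixed by `φ`. -/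
lemma alt_fixed_u [IsAlgClosed k] [Curve C] {φ : (Fin r → ℤˣ) →* (Fin r → ℤˣ)}
    {g₀ : Fin r → ℤˣ}
    (hs : prod.lift prod.snd (prod.fst ≫ (ρ g₀ : C ⟶ C)) ≫ q = q)
    {T : Finset (Fin r)} (hT : dual φ T = T) {γ : ℕ} (h : Effective ρ T γ)
    (w : Finset (Fin r) → Pt C)
    {n m : ℕ} (hm : bd γ (chi T g₀) < m)
    (ι : Fin m ↪ Fin n) (s : Fin n → Pt (C ⨯ C)) (t : Fin n → Finset (Fin r))
    (ht : ∀ j, t (ι j) = T) :
    Alt S n (fun i => btu q ρ φ w (t i) (s i)) = 0 := by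
  classical
  refine alt_zero_of ι _ fun ψ b' => ?_
  have hG := geoC_plug (geoC_E (C := C) (S := S) n) ψ b'
  have hB := block_mixed_u q ρ h (w T) (chi T g₀) (fun D D' => be_e_swap hs T T D D') hm hG
    (fun j => if j.2 then s (ι j.1) ≫ prod.snd else s (ι j.1) ≫ prod.fst)
  rw [← hB]
  refine Finset.sum_congr rfl fun π _ => ?_
  congr 2
  funext i
  unfold btu
  rw [ht, hT]
  rfl

/-- Many places with characters `χ_T` or `χ_T ∘ φ`, different from each other. -/
lemma alt_pair_u [IsAlgClosed k] [Curve C] {φ : (Fin r → ℤˣ) →* (Fin r → ℤˣ)}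
    (hφ : ∀ g, φ (φ g) = g) {g₀ : Fin r → ℤˣ}
    (hs : prod.lift prod.snd (prod.fst ≫ (ρ g₀ : C ⟶ C)) ≫ q = q)
    {T : Finset (Fin r)} (hT : T ≠ ∅) {γ₁ γ₂ : ℕ} (h₁ : Effective ρ T γ₁)
    (h₂ : Effective ρ (dual φ T) γ₂)
    {w : Finset (Fin r) → Pt C} (hw : ∀ T, T ≠ ∅ → e ρ T (Finsupp.single (w T) 1) = 0)
    {n m : ℕ} (hm : γ₁ * γ₂ < m)
    (ι : Fin m ↪ Fin n) (s : Fin n → Pt (C ⨯ C)) (t : Fin n → Finset (Fin r))
    (ht : ∀ j, t (ι j) = T ∨ t (ι j) = dual φ T) :
    Alt S n (fun i => btu q ρ φ w (t i) (s i)) = 0 := by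
  classical
  have hch : ∀ j : Fin m, ∃ (c : ℚ) (X Y : Pt C), btu q ρ φ w (t (ι j)) (s (ι j)) =
      c • be q (e ρ T (Finsupp.single X 1)) (e (ρ.comp φ) T (Finsupp.single Y 1)) := by
    intro j
    rcases ht j with h | h
    · refine ⟨1, s (ι j) ≫ prod.fst, s (ι j) ≫ prod.snd, ?_⟩
      rw [one_smul, h, btu_eq hφ hw hT]
      rfl
    · refine ⟨cq (dual φ T) g₀, s (ι j) ≫ prod.snd, s (ι j) ≫ prod.fst, ?_⟩
      rw [h, btu_eq hφ hw (dual_ne_empty hφ hT), bt_eq hφ, dual_dual hφ, be_e_swap hs,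
        e_dual ρ hφ]
  choose c X Y hXY using hch
  refine alt_zero_of ι _ fun ψ b' => ?_
  have hG := geoC_plug (geoC_E (C := C) (S := S) n) ψ b'
  have hB := block q ρ (ρ.comp φ) h₁ (effective_dual ρ hφ h₂) (hw T hT)
    (by rw [e_dual ρ hφ]; exact hw _ (dual_ne_empty hφ hT)) hm hG hG X Y
  have e1 : ∀ π : Equiv.Perm (Fin m), plug (E S n) ψ b'
      (fun i => btu q ρ φ w (t (ι (π i))) (s (ι (π i)))) = (∏ j, c j) •
        plug (E S n) ψ b' (fun i => be q (e ρ T (Finsupp.single (X (π i)) 1))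
          (e (ρ.comp φ) T (Finsupp.single (Y (π i)) 1))) := by
    intro π
    rw [← Equiv.prod_comp π c, ← MultilinearMap.map_smul_univ]
    congr 1
    funext i
    exact hXY (π i)
  simp only [e1]
  simp only [smul_comm _ (∏ j, c j)]
  rw [← Finset.smul_sum]
  exact smul_eq_zero_of_right _ hB

lemma alt_mixed_u [IsAlgClosed k] [Curve C] {φ : (Fin r → ℤˣ) →* (Fin r → ℤˣ)}
    (hφ : ∀ g, φ (φ g) = g) {g₀ : Fin r → ℤˣ}
    (hs : prod.lift prod.snd (prod.fst ≫ (ρ g₀ : C ⟶ C)) ≫ q = q)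
    (γ : Finset (Fin r) → ℕ) (hγ : ∀ T, Effective ρ T (γ T))
    {w : Finset (Fin r) → Pt C} (hw : ∀ T, T ≠ ∅ → e ρ T (Finsupp.single (w T) 1) = 0)
    {n : ℕ} (hn : ∑ T, fb φ g₀ γ T < 2 * n)
    (s : Fin n → Pt (C ⨯ C)) (t : Fin n → Finset (Fin r)) :
    Alt S n (fun i => btu q ρ φ w (t i) (s i)) = 0 := by
  classical
  obtain ⟨T, -, hlt⟩ := pigeon (dual_dual hφ) (Ω := Finset.univ)
    (fun T _ => Finset.mem_univ _) (fb φ g₀ γ) hn t (fun i => Finset.mem_univ _)
  by_cases hTT : dual φ T = T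
  · unfold fb at hlt
    rw [if_pos hTT, hTT] at hlt
    have hlt' : bd (γ T) (chi T g₀) < (Finset.univ.filter fun i => t i = T).card := by omega
    let ι : Fin (Finset.univ.filter fun i => t i = T).card ↪ Fin n :=
      ((Finset.univ.filter fun i => t i = T).orderEmbOfFin rfl).toEmbedding
    have hι : ∀ i, t (ι i) = T := fun i =>
      (Finset.mem_filter.1 ((Finset.univ.filter fun i => t i = T).orderEmbOfFin_mem rfl i)).2
    exact alt_fixed_u hs hTT (hγ T) w hlt' ι s t hι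
  · unfold fb at hlt
    rw [if_neg hTT] at hlt
    have hT : T ≠ ∅ := fun h => hTT (by rw [h, dual_empty])
    have hcard : (Finset.univ.filter fun i => t i = T).card +
        (Finset.univ.filter fun i => t i = dual φ T).card =
        (Finset.univ.filter fun i => t i = T ∨ t i = dual φ T).card := by
      rw [Finset.filter_or, Finset.card_union_of_disjoint]
      refine Finset.disjoint_filter.2 fun i _ h1 h2 => hTT ?_
      rw [← h2, h1]
    rw [hcard] at hlt
    let ι : Fin (Finset.univ.filter fun i => t i = T ∨ t i = dual φ T).card ↪ Fin n :=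
      ((Finset.univ.filter fun i => t i = T ∨ t i = dual φ T).orderEmbOfFin rfl).toEmbedding
    have hι : ∀ i, t (ι i) = T ∨ t (ι i) = dual φ T := fun i =>
      (Finset.mem_filter.1
        ((Finset.univ.filter fun i => t i = T ∨ t i = dual φ T).orderEmbOfFin_mem rfl i)).2
    exact alt_pair_u hφ hs hT (hγ T) (hγ _) hw hlt ι s t hι

lemma albTrivialMixed_iff {a : ZeroCycle (C ⨯ C)} :
    AlbTrivialMixed ρ a ↔ e ρ ∅ (push prod.fst a + push prod.snd a) ∈ ratZero C := by
  unfold AlbTrivialMixed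
  rw [e_apply]
  simp [cq, chi]

end

end Pool.Agent.Run7.h780.VQ
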