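import Pool.Agent.Run7.h780.VQ.Mixed2

/-!
# Voisin's conjecture for mixed quotients of the square of a curve, with Albanese variety: the assembly
-/

set_option autoImplicit false

open CategoryTheory CategoryTheory.Limits AlgebraicGeometry

universe u

namespace Pool.Agent.Run7.h780.VQ

open Run7.h220.ZC Run7.h220.Comb

variable {k : Type u} [Field k] {r : ℕ}

section

variable {C S : Over (Spec (.of k))} {q : C ⨯ C ⟶ S} {ρ : (Fin r → ℤˣ) →* End C}

lemma push_cst {X : Over (Spec (.of k))} (p : Pt S) (a : ZeroCycle X) :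
    push (cst X p) a = (a.sum fun _ c => c) • (Finsupp.single p 1 : ZeroCycle S) := by
  induction a using Finsupp.induction_linear with
  | zero => simp
  | add a b ha hb =>
    rw [map_add, ha, hb, ← add_smul, Finsupp.sum_add_index' (fun _ => rfl) (fun _ _ _ => rfl)]
  | single x c =>
    rw [push_single, comp_cst, Finsupp.sum_single_index rfl]
    simp

lemma deg_smul_mem {a : ZeroCycle (C ⨯ C)} (ha : AlbTrivialMixed ρ a) (z : ZeroCycle S) :
    (a.sum fun _ c => c) • z ∈ ratZero S := by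
  have hp : ∀ p : Pt S, (a.sum fun _ c => c) • (Finsupp.single p 1 : ZeroCycle S) ∈ ratZero S := by
    intro p
    have h1 := push_mem (cst C p) ha
    rw [map_sum] at h1
    have h2 : ∀ g ∈ (Finset.univ : Finset (Fin r → ℤˣ)),
        push (cst C p) (push (ρ g : C ⟶ C) (push prod.fst a + push prod.snd a)) =
        (2 : ℚ) • (a.sum fun _ c => c) • (Finsupp.single p 1 : ZeroCycle S) := by
      intro g _
      rw [← push_comp, comp_cst', map_add, ← push_comp, ← push_comp, comp_cst', comp_cst',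
        push_cst, two_smul]
    rw [Finset.sum_congr rfl h2, Finset.sum_const, ← Nat.cast_smul_eq_nsmul ℚ, smul_smul] at h1
    refine (Submodule.smul_mem_iff _ ?_).1 h1
    have h3 : ((Finset.univ : Finset (Fin r → ℤˣ)).card : ℚ) ≠ 0 :=
      Nat.cast_ne_zero.2 (Finset.card_pos.2 ⟨1, Finset.mem_univ _⟩).ne'
    exact mul_ne_zero h3 two_ne_zero
  induction z using Finsupp.induction_linear with
  | zero => rw [smul_zero]; exact Submodule.zero_mem _
  | add z z' h h' => rw [smul_add]; exact Submodule.add_mem _ h h'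
  | single s c =>
    have h1 : (Finsupp.single s c : ZeroCycle S) = c • Finsupp.single s 1 := by simp
    rw [h1, smul_comm]
    exact Submodule.smul_mem _ _ (hp s)

lemma lin_comp_push {X Y : Over (Spec (.of k))} {M : Type*} [AddCommGroup M] [Module ℚ M]
    (L : ZeroCycle Y →ₗ[ℚ] M) (f : X ⟶ Y) (a : ZeroCycle X) :
    lin (fun s => L (Finsupp.single (s ≫ f) 1)) a = L (push f a) := by
  have h : lin (fun s => L (Finsupp.single (s ≫ f) 1)) = L.comp (push f) := by
    refine Finsupp.lhom_ext fun s c => ?_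
    have hs : (Finsupp.single s c : ZeroCycle X) = c • Finsupp.single s 1 := by simp
    rw [hs, map_smul, map_smul, lin_single, LinearMap.comp_apply, push_single]
  exact LinearMap.congr_fun h a

lemma lin_const {X : Over (Spec (.of k))} {M : Type*} [AddCommGroup M] [Module ℚ M]
    (z : M) (a : ZeroCycle X) :
    lin (fun _ : Pt X => z) a = (a.sum fun _ c => c) • z := by
  rw [lin, Finsupp.linearCombination_apply, Finsupp.sum, Finsupp.sum, Finset.sum_smul]

/-- The decomposition of the zero-cycles on `C × C`. -/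
lemma push_eq_bt (ρ₁ ρ₂ : (Fin r → ℤˣ) →* End C)
    (hq : ∀ g, prod.map (ρ₁ g : C ⟶ C) (ρ₂ g : C ⟶ C) ≫ q = q) (a : ZeroCycle (C ⨯ C)) :
    push q a = ((2 : ℚ) ^ r * 2 ^ r)⁻¹ • lin (fun s => ∑ T, bt q ρ₁ ρ₂ T s) a := by
  have hc : ((2 : ℚ) ^ r * 2 ^ r) ≠ 0 := by positivity
  have h3 : push q = ((2 : ℚ) ^ r * 2 ^ r)⁻¹ • lin (fun s => ∑ T, bt q ρ₁ ρ₂ T s) := by
    refine Finsupp.lhom_ext fun s c => ?_
    have hs : (Finsupp.single s c : ZeroCycle (C ⨯ C)) = c • Finsupp.single s 1 := by simp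
    rw [hs, map_smul, map_smul, LinearMap.smul_apply, lin_single, push_single]
    congr 1
    unfold bt
    rw [sum_be hq, smul_smul, inv_mul_cancel₀ hc, one_smul, be_single]
    congr 1
    rw [← prod.comp_lift, prod.lift_fst_snd, Category.comp_id]
  rw [h3, LinearMap.smul_apply]

lemma cq_empty (g : Fin r → ℤˣ) : cq ∅ g = 1 := by simp [cq, chi]

/-- An Albanese-trivial zero-cycle on the mixed quotient. -/
lemma sub_lin_btu {φ : (Fin r → ℤˣ) →* (Fin r → ℤˣ)} (hφ : ∀ g, φ (φ g) = g)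
    {g₀ : Fin r → ℤˣ}
    (hq : ∀ g, prod.map (ρ g : C ⟶ C) (ρ (φ g) : C ⟶ C) ≫ q = q)
    (hs : prod.lift prod.snd (prod.fst ≫ (ρ g₀ : C ⟶ C)) ≫ q = q)
    {w : Finset (Fin r) → Pt C} (hw : ∀ T, T ≠ ∅ → e ρ T (Finsupp.single (w T) 1) = 0)
    {a : ZeroCycle (C ⨯ C)} (ha : AlbTrivialMixed ρ a) :
    push q a - ((2 : ℚ) ^ r * 2 ^ r)⁻¹ • lin (fun s => ∑ T, btu q ρ φ w T s) a ∈ ratZero S := by
  rw [push_eq_bt ρ (ρ.comp φ) hq, ← smul_sub]
  refine Submodule.smul_mem _ _ ?_
  rw [← lin_sub]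
  set o : Pt C := w ∅ with ho
  have e1 : (fun s => ∑ T, bt q ρ (ρ.comp φ) T s - ∑ T, btu q ρ φ w T s) = fun s =>
      ((be q (e ρ ∅ (Finsupp.single o 1))).comp (e ρ ∅)) (Finsupp.single (s ≫ prod.fst) 1) +
      ((be q (e ρ ∅ (Finsupp.single o 1))).comp (e ρ ∅)) (Finsupp.single (s ≫ prod.snd) 1) -
      be q (e ρ ∅ (Finsupp.single o 1)) (e ρ ∅ (Finsupp.single o 1)) := by
    funext s
    rw [← Finset.sum_sub_distrib, Finset.sum_eq_single (∅ : Finset (Fin r))]
    · rw [bt_eq hφ]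
      unfold btu
      rw [dual_empty, ← ho]
      unfold u
      have h3 := be_e_swap hs ∅ ∅ (Finsupp.single (s ≫ prod.fst) 1) (Finsupp.single o 1)
      rw [cq_empty, one_smul] at h3
      simp only [map_sub, LinearMap.sub_apply, LinearMap.comp_apply]
      rw [h3]
      abel
    · intro T _ hT
      rw [btu_eq hφ hw hT, sub_self]
    · intro h
      exact absurd (Finset.mem_univ _) h
  rw [e1, lin_sub, lin_add, lin_comp_push, lin_comp_push, lin_const, ← map_add,
    LinearMap.comp_apply]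
  exact Submodule.sub_mem _ (be_mem_right (albTrivialMixed_iff.1 ha) _) (deg_smul_mem ha _)

/-- **Voisin's conjecture for mixed quotients of squares of curves by extensions of `ℤ/2` by
`(ℤ/2)^r`**, with Albanese variety. -/
theorem voisin_mixed_alb [IsAlgClosed k] [Curve C] {φ : (Fin r → ℤˣ) →* (Fin r → ℤˣ)}
    (hφ : ∀ g, φ (φ g) = g) {g₀ : Fin r → ℤˣ}
    (hq : ∀ g, prod.map (ρ g : C ⟶ C) (ρ (φ g) : C ⟶ C) ≫ q = q)
    (hs : prod.lift prod.snd (prod.fst ≫ (ρ g₀ : C ⟶ C)) ≫ q = q)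
    (γ : Finset (Fin r) → ℕ) (hγ : ∀ T, Effective ρ T (γ T))
    (hw : ∀ T, T.Nonempty → Ramified ρ T)
    {n : ℕ} (hn : ∑ T, fb φ g₀ γ T < 2 * n)
    (a : Fin n → ZeroCycle (C ⨯ C)) (ha : ∀ i, AlbTrivialMixed ρ (a i)) :
    ∑ σ : Equiv.Perm (Fin n), ((Equiv.Perm.sign σ : ℤ) : ℚ) • ext (fun i => push q (a (σ i))) ∈
      ratZero (∏ᶜ fun _ : Fin n => S) := by
  classical
  rw [← cls_eq_zero, map_sum]
  simp only [map_smul, ← E_eq]
  by_cases hne : Nonempty (Pt (C ⨯ C))
  · obtain ⟨p⟩ := hne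
    have hz : ∀ T : Finset (Fin r), ∃ w : Pt C, T ≠ ∅ → e ρ T (Finsupp.single w 1) = 0 := by
      intro T
      by_cases hT : T = ∅
      · exact ⟨p ≫ prod.fst, fun h => absurd hT h⟩
      · obtain ⟨v, g, hg, hv⟩ := hw T (Finset.nonempty_iff_ne_empty.2 hT)
        exact ⟨v, fun _ => e_ramified ρ hg hv⟩
    choose w hw' using hz
    set c : ℚ := ((2 : ℚ) ^ r * 2 ^ r)⁻¹ with hc
    set W : Pt (C ⨯ C) → ZeroCycle S := fun s => ∑ T, btu q ρ φ w T s with hW
    have e1 : ∀ σ : Equiv.Perm (Fin n), E S n (fun i => push q (a (σ i))) =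
        E S n (fun i => c • lin W (a (σ i))) := fun σ =>
      (compat_E _ n).congr fun i => sub_lin_btu hφ hq hs hw' (ha _)
    simp only [e1]
    have hT : (Alt S n).compLinearMap (fun _ => c • lin W) = 0 := by
      refine mext_unique fun s => ?_
      rw [MultilinearMap.compLinearMap_apply, _root_.zero_apply]
      simp only [LinearMap.smul_apply, lin_single]
      rw [MultilinearMap.map_smul_univ (Alt S n) (fun _ => c) (fun i => W (s i)), hW,
        MultilinearMap.map_sum_finset]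
      refine smul_eq_zero_of_right _ (Finset.sum_eq_zero fun t _ => ?_)
      exact alt_mixed_u hφ hs γ hγ hw' hn s t
    have h4 : ((Alt S n).compLinearMap (fun _ => c • lin W)) a = 0 := by
      rw [hT, _root_.zero_apply]
    rw [MultilinearMap.compLinearMap_apply, Alt_apply] at h4
    rw [← h4]
    rfl
  · refine Finset.sum_eq_zero fun σ _ => ?_
    have h5 : a (σ ⟨0, by omega⟩) = 0 := by
      ext x
      exact absurd ⟨x⟩ hne
    rw [(E S n).map_coord_zero ⟨0, by omega⟩ (by rw [h5, map_zero]), smul_zero]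

/-- If `C / G` is rational, all zero-cycles of degree zero are Albanese-trivial. -/
lemma albTrivialMixed_of_rational [Curve C] (h : Effective ρ ∅ 0) {a : ZeroCycle (C ⨯ C)}
    (ha : a.sum (fun _ c => c) = 0) : AlbTrivialMixed ρ a := by
  rw [albTrivialMixed_iff]
  by_cases hne : Nonempty (Pt C)
  · obtain ⟨o⟩ := hne
    have h3 : ∀ s : Pt (C ⨯ C), e ρ ∅ (Finsupp.single (s ≫ prod.fst) 1) +
        e ρ ∅ (Finsupp.single (s ≫ prod.snd) 1) - (2 : ℚ) • e ρ ∅ (Finsupp.single o 1) ∈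
          ratZero C := by
      intro s
      have h4 := Submodule.add_mem _ (orbit_mem h (s ≫ prod.fst) o) (orbit_mem h (s ≫ prod.snd) o)
      convert h4 using 1
      module
    have h5 : e ρ ∅ (push prod.fst a + push prod.snd a) = lin (fun s =>
        e ρ ∅ (Finsupp.single (s ≫ prod.fst) 1) +
        e ρ ∅ (Finsupp.single (s ≫ prod.snd) 1) - (2 : ℚ) • e ρ ∅ (Finsupp.single o 1)) a := by
      rw [lin_sub, lin_add, lin_comp_push, lin_comp_push, lin_const, ha, zero_smul, sub_zero,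
        map_add]
    rw [h5, lin, Finsupp.linearCombination_apply]
    exact Submodule.sum_mem _ fun s _ => Submodule.smul_mem _ _ (h3 s)
  · have h5 : a = 0 := by
      ext x
      exact absurd ⟨x ≫ prod.fst⟩ hne
    rw [h5]
    simp

end

lemma lt_of_fb' {φ : (Fin r → ℤˣ) →* (Fin r → ℤˣ)} {g₀ : Fin r → ℤˣ} {γ : Finset (Fin r) → ℕ}
    {n : ℕ} (hn : ∑ T, ((γ T : ℤ) * γ (dual φ T) -
      if dual φ T = T then (chi T g₀ : ℤ) * γ T else 0) < 2 * n) :
    ∑ T, fb φ g₀ γ T < 2 * n := by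
  rw [← Finset.sum_congr rfl fun T _ => fb_cast φ g₀ γ T] at hn
  exact_mod_cast hn

end Pool.Agent.Run7.h780.VQ
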