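import Pool.Agent.Run7.h780.VQ.Mixed

/-!
# Voisin's conjecture for mixed quotients of the square of a curve: the assembly
-/

set_option autoImplicit false

open CategoryTheory CategoryTheory.Limits AlgebraicGeometry

universe u

namespace Pool.Agent.Run7.h780.VQ

open Run7.h220.ZC Run7.h220.Comb

variable {k : Type u} [Field k] {r : ℕ}

lemma pigeon {α : Type*} [DecidableEq α] {ν : α → α} (hν : ∀ a, ν (ν a) = a)
    {Ω : Finset α} (hΩ : ∀ a ∈ Ω, ν a ∈ Ω) (f : α → ℕ) {n : ℕ} (hn : ∑ a ∈ Ω, f a < 2 * n)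
    (t : Fin n → α) (ht : ∀ i, t i ∈ Ω) : ∃ a ∈ Ω, f a <
      (Finset.univ.filter fun i => t i = a).card + (Finset.univ.filter fun i => t i = ν a).card := by
  by_contra hcon
  push Not at hcon
  have h3 := Finset.card_eq_sum_card_fiberwise (s := (Finset.univ : Finset (Fin n)))
    (f := t) (t := Ω) (fun i _ => ht i)
  rw [Finset.card_univ, Fintype.card_fin] at h3
  have h4 := Finset.sum_le_sum hcon
  rw [Finset.sum_add_distrib] at h4
  have h5 : ∑ a ∈ Ω, (Finset.univ.filter fun i => t i = ν a).card =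
      ∑ a ∈ Ω, (Finset.univ.filter fun i => t i = a).card :=
    Finset.sum_nbij' ν ν hΩ hΩ (fun a _ => hν a) (fun a _ => hν a) (fun a _ => rfl)
  omega

/-- Twice the contribution of the character `χ_T` to the geometric genus. -/
def fb (φ : (Fin r → ℤˣ) →* (Fin r → ℤˣ)) (g₀ : Fin r → ℤˣ) (γ : Finset (Fin r) → ℕ)
    (T : Finset (Fin r)) : ℕ :=
  if dual φ T = T then 2 * bd (γ T) (chi T g₀) else γ T * γ (dual φ T)

lemma two_mul_choose (m : ℕ) : (2 : ℤ) * (m.choose 2 : ℕ) = (m : ℤ) * (m - 1) := by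
  induction m with
  | zero => simp
  | succ m ih =>
    rw [Nat.choose_succ_succ' m 1, Nat.choose_one_right]
    push_cast
    push_cast at ih
    linarith

lemma fb_cast (φ : (Fin r → ℤˣ) →* (Fin r → ℤˣ)) (g₀ : Fin r → ℤˣ) (γ : Finset (Fin r) → ℕ)
    (T : Finset (Fin r)) : ((fb φ g₀ γ T : ℕ) : ℤ) = (γ T : ℤ) * γ (dual φ T) -
      if dual φ T = T then (chi T g₀ : ℤ) * γ T else 0 := by
  unfold fb
  split_ifs with h
  · rw [h]
    unfold bd
    split_ifs with hc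
    · have h2 := two_mul_choose (γ T)
      rw [hc]
      push_cast at h2 ⊢
      linarith
    · have hc2 : chi T g₀ = -1 := (Int.units_eq_one_or _).resolve_left hc
      have h2 := two_mul_choose (γ T + 1)
      rw [hc2]
      push_cast at h2 ⊢
      linarith
  · push_cast
    ring

lemma lt_of_fb {φ : (Fin r → ℤˣ) →* (Fin r → ℤˣ)} {g₀ : Fin r → ℤˣ} {γ : Finset (Fin r) → ℕ}
    {n : ℕ} (hn : ∑ T ∈ Finset.univ.erase ∅, ((γ T : ℤ) * γ (dual φ T) -
      if dual φ T = T then (chi T g₀ : ℤ) * γ T else 0) < 2 * n) :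
    ∑ T ∈ Finset.univ.erase ∅, fb φ g₀ γ T < 2 * n := by
  rw [← Finset.sum_congr rfl fun T _ => fb_cast φ g₀ γ T] at hn
  exact_mod_cast hn

section

variable {C S : Over (Spec (.of k))} {q : C ⨯ C ⟶ S} {ρ : (Fin r → ℤˣ) →* End C}

lemma bt_eq {φ : (Fin r → ℤˣ) →* (Fin r → ℤˣ)} (hφ : ∀ g, φ (φ g) = g) (T : Finset (Fin r))
    (s : Pt (C ⨯ C)) : bt q ρ (ρ.comp φ) T s = be q (e ρ T (Finsupp.single (s ≫ prod.fst) 1))
      (e ρ (dual φ T) (Finsupp.single (s ≫ prod.snd) 1)) := by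
  unfold bt
  rw [e_dual ρ hφ]

/-- Many places with characters `χ_T` or `χ_T ∘ φ`, different from each other. -/
lemma alt_pair [IsAlgClosed k] [Curve C] {φ : (Fin r → ℤˣ) →* (Fin r → ℤˣ)}
    (hφ : ∀ g, φ (φ g) = g) {g₀ : Fin r → ℤˣ}
    (hs : prod.lift prod.snd (prod.fst ≫ (ρ g₀ : C ⟶ C)) ≫ q = q)
    {T : Finset (Fin r)} {γ₁ γ₂ : ℕ} (h₁ : Effective ρ T γ₁) (h₂ : Effective ρ (dual φ T) γ₂)
    {w₁ w₂ : Pt C} (hw₁ : e ρ T (Finsupp.single w₁ 1) = 0)
    (hw₂ : e ρ (dual φ T) (Finsupp.single w₂ 1) = 0) {n m : ℕ} (hm : γ₁ * γ₂ < m)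
    (ι : Fin m ↪ Fin n) (s : Fin n → Pt (C ⨯ C)) (t : Fin n → Finset (Fin r))
    (ht : ∀ j, t (ι j) = T ∨ t (ι j) = dual φ T) :
    Alt S n (fun i => bt q ρ (ρ.comp φ) (t i) (s i)) = 0 := by
  classical
  have hch : ∀ j : Fin m, ∃ (c : ℚ) (X Y : Pt C), bt q ρ (ρ.comp φ) (t (ι j)) (s (ι j)) =
      c • be q (e ρ T (Finsupp.single X 1)) (e (ρ.comp φ) T (Finsupp.single Y 1)) := by
    intro j
    rcases ht j with h | h
    · refine ⟨1, s (ι j) ≫ prod.fst, s (ι j) ≫ prod.snd, ?_⟩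
      rw [one_smul, h]
      rfl
    · refine ⟨cq (dual φ T) g₀, s (ι j) ≫ prod.snd, s (ι j) ≫ prod.fst, ?_⟩
      rw [h, bt_eq hφ, dual_dual hφ, be_e_swap hs, e_dual ρ hφ]
  choose c X Y hXY using hch
  refine alt_zero_of ι _ fun ψ b' => ?_
  have hG := geoC_plug (geoC_E (C := C) (S := S) n) ψ b'
  have hB := block q ρ (ρ.comp φ) h₁ (effective_dual ρ hφ h₂) hw₁
    (by rw [e_dual ρ hφ]; exact hw₂) hm hG hG X Y
  have e1 : ∀ π : Equiv.Perm (Fin m), plug (E S n) ψ b'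
      (fun i => bt q ρ (ρ.comp φ) (t (ι (π i))) (s (ι (π i)))) = (∏ j, c j) •
        plug (E S n) ψ b' (fun i => be q (e ρ T (Finsupp.single (X (π i)) 1))
          (e (ρ.comp φ) T (Finsupp.single (Y (π i)) 1))) := by
    intro π
    rw [← Equiv.prod_comp π c, ← MultilinearMap.map_smul_univ]
    congr 1
    funext i
    exact hXY (π i)
  simp only [e1]
  simp only [smul_comm _ (∏ j, c j)]
  rw [← Finset.smul_sum]
  exact smul_eq_zero_of_right _ hB

/-- Many places with a character `χ_T` which is fixed by `φ`. -/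
lemma alt_fixed [IsAlgClosed k] [Curve C] {φ : (Fin r → ℤˣ) →* (Fin r → ℤˣ)}
    (hφ : ∀ g, φ (φ g) = g) {g₀ : Fin r → ℤˣ}
    (hs : prod.lift prod.snd (prod.fst ≫ (ρ g₀ : C ⟶ C)) ≫ q = q)
    {T : Finset (Fin r)} (hT : dual φ T = T) {γ : ℕ} (h : Effective ρ T γ)
    {w : Pt C} (hw : e ρ T (Finsupp.single w 1) = 0)
    {n m : ℕ} (hm : bd γ (chi T g₀) < m)
    (ι : Fin m ↪ Fin n) (s : Fin n → Pt (C ⨯ C)) (t : Fin n → Finset (Fin r))
    (ht : ∀ j, t (ι j) = T) :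
    Alt S n (fun i => bt q ρ (ρ.comp φ) (t i) (s i)) = 0 := by
  classical
  refine alt_zero_of ι _ fun ψ b' => ?_
  have hG := geoC_plug (geoC_E (C := C) (S := S) n) ψ b'
  have hB := block_mixed q ρ h hw (chi T g₀) (fun D D' => be_e_swap hs T T D D') hm hG
    (fun j => if j.2 then s (ι j.1) ≫ prod.snd else s (ι j.1) ≫ prod.fst)
  rw [← hB]
  refine Finset.sum_congr rfl fun π _ => ?_
  congr 2
  funext i
  rw [ht, bt_eq hφ, hT]
  rfl

lemma alt_mixed [IsAlgClosed k] [Curve C] {φ : (Fin r → ℤˣ) →* (Fin r → ℤˣ)}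
    (hφ : ∀ g, φ (φ g) = g) {g₀ : Fin r → ℤˣ}
    (hs : prod.lift prod.snd (prod.fst ≫ (ρ g₀ : C ⟶ C)) ≫ q = q)
    (γ : Finset (Fin r) → ℕ) (hγ : ∀ T, Effective ρ T (γ T))
    (hw : ∀ T, T.Nonempty → Ramified ρ T)
    {n : ℕ} (hn : ∑ T ∈ Finset.univ.erase ∅, fb φ g₀ γ T < 2 * n)
    (s : Fin n → Pt (C ⨯ C)) (t : Fin n → Finset (Fin r))
    (ht : ∀ i, t i ∈ (Finset.univ.erase ∅ : Finset (Finset (Fin r)))) :
    Alt S n (fun i => bt q ρ (ρ.comp φ) (t i) (s i)) = 0 := by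
  classical
  have hd : ∀ T ∈ (Finset.univ.erase ∅ : Finset (Finset (Fin r))),
      dual φ T ∈ (Finset.univ.erase ∅ : Finset (Finset (Fin r))) := by
    intro T hT
    refine Finset.mem_erase.2 ⟨fun h => ?_, Finset.mem_univ _⟩
    have h2 := dual_dual hφ T
    rw [h, dual_empty] at h2
    exact (Finset.mem_erase.1 hT).1 h2.symm
  have hz : ∀ T ∈ (Finset.univ.erase ∅ : Finset (Finset (Fin r))),
      ∃ w : Pt C, e ρ T (Finsupp.single w 1) = 0 := by
    intro T hT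
    obtain ⟨v, g, hg, hv⟩ := hw T (Finset.nonempty_iff_ne_empty.2 (Finset.ne_of_mem_erase hT))
    exact ⟨v, e_ramified ρ hg hv⟩
  obtain ⟨T, hT, hlt⟩ := pigeon (dual_dual hφ) hd (fb φ g₀ γ) hn t ht
  obtain ⟨w₁, hw₁⟩ := hz T hT
  by_cases hTT : dual φ T = T
  · unfold fb at hlt
    rw [if_pos hTT, hTT] at hlt
    have hlt' : bd (γ T) (chi T g₀) < (Finset.univ.filter fun i => t i = T).card := by omega
    let ι : Fin (Finset.univ.filter fun i => t i = T).card ↪ Fin n :=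
      ((Finset.univ.filter fun i => t i = T).orderEmbOfFin rfl).toEmbedding
    have hι : ∀ i, t (ι i) = T := fun i =>
      (Finset.mem_filter.1 ((Finset.univ.filter fun i => t i = T).orderEmbOfFin_mem rfl i)).2
    exact alt_fixed hφ hs hTT (hγ T) hw₁ hlt' ι s t hι
  · unfold fb at hlt
    rw [if_neg hTT] at hlt
    obtain ⟨w₂, hw₂⟩ := hz _ (hd T hT)
    have hcard : (Finset.univ.filter fun i => t i = T).card +
        (Finset.univ.filter fun i => t i = dual φ T).card =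
        (Finset.univ.filter fun i => t i = T ∨ t i = dual φ T).card := by
      rw [Finset.filter_or, Finset.card_union_of_disjoint]
      refine Finset.disjoint_filter.2 fun i _ h1 h2 => hTT ?_
      rw [← h2, h1]
    rw [hcard] at hlt
    let ι : Fin (Finset.univ.filter fun i => t i = T ∨ t i = dual φ T).card ↪ Fin n :=
      ((Finset.univ.filter fun i => t i = T ∨ t i = dual φ T).orderEmbOfFin rfl).toEmbedding
    have hι : ∀ i, t (ι i) = T ∨ t (ι i) = dual φ T := fun i =>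
      (Finset.mem_filter.1
        ((Finset.univ.filter fun i => t i = T ∨ t i = dual φ T).orderEmbOfFin_mem rfl i)).2
    exact alt_pair hφ hs (hγ T) (hγ _) hw₁ hw₂ hlt ι s t hι

/-- **Voisin's conjecture for mixed quotients of squares of curves by extensions of `ℤ/2` by
`(ℤ/2)^r`.** -/
theorem voisin_mixed [IsAlgClosed k] [Curve C] {φ : (Fin r → ℤˣ) →* (Fin r → ℤˣ)}
    (hφ : ∀ g, φ (φ g) = g) {g₀ : Fin r → ℤˣ}
    (hq : ∀ g, prod.map (ρ g : C ⟶ C) (ρ (φ g) : C ⟶ C) ≫ q = q)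
    (hs : prod.lift prod.snd (prod.fst ≫ (ρ g₀ : C ⟶ C)) ≫ q = q)
    (γ : Finset (Fin r) → ℕ) (hγ : ∀ T, Effective ρ T (γ T)) (z : γ ∅ = 0)
    (hw : ∀ T, T.Nonempty → Ramified ρ T)
    {n : ℕ} (hn : ∑ T ∈ Finset.univ.erase ∅, fb φ g₀ γ T < 2 * n)
    (a : Fin n → ZeroCycle (C ⨯ C)) (ha : ∀ i, (a i).sum (fun _ c => c) = 0) :
    ∑ σ : Equiv.Perm (Fin n), ((Equiv.Perm.sign σ : ℤ) : ℚ) • ext (fun i => push q (a (σ i))) ∈
      ratZero (∏ᶜ fun _ : Fin n => S) := by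
  classical
  have h₁ : Effective ρ ∅ 0 := z ▸ hγ ∅
  have h₂ : Effective (ρ.comp φ) ∅ 0 := effective_dual ρ hφ (by rw [dual_empty]; exact h₁)
  rw [← cls_eq_zero, map_sum]
  simp only [map_smul, ← E_eq]
  by_cases hne : Nonempty (Pt (C ⨯ C))
  · obtain ⟨p⟩ := hne
    set c : ℚ := ((2 : ℚ) ^ r * 2 ^ r)⁻¹ with hc
    set W : Pt (C ⨯ C) → ZeroCycle S :=
      fun s => ∑ T ∈ Finset.univ.erase ∅, bt q ρ (ρ.comp φ) T s with hW
    have e1 : ∀ σ : Equiv.Perm (Fin n), E S n (fun i => push q (a (σ i))) =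
        E S n (fun i => c • lin W (a (σ i))) := fun σ =>
      (compat_E _ n).congr fun i => sub_lin_bt (ρ₁ := ρ) (ρ₂ := ρ.comp φ) hq h₁ h₂ p (ha _)
    simp only [e1]
    have hT : (Alt S n).compLinearMap (fun _ => c • lin W) = 0 := by
      refine mext_unique fun s => ?_
      rw [MultilinearMap.compLinearMap_apply, _root_.zero_apply]
      simp only [LinearMap.smul_apply, lin_single]
      rw [MultilinearMap.map_smul_univ (Alt S n) (fun _ => c) (fun i => W (s i)), hW,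
        MultilinearMap.map_sum_finset]
      refine smul_eq_zero_of_right _ (Finset.sum_eq_zero fun t ht => ?_)
      rw [Fintype.mem_piFinset] at ht
      exact alt_mixed hφ hs γ hγ hw hn s t ht
    have h4 : ((Alt S n).compLinearMap (fun _ => c • lin W)) a = 0 := by
      rw [hT, _root_.zero_apply]
    rw [MultilinearMap.compLinearMap_apply, Alt_apply] at h4
    rw [← h4]
    rfl
  · refine Finset.sum_eq_zero fun σ _ => ?_
    have h5 : a (σ ⟨0, by omega⟩) = 0 := by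
      ext x
      exact absurd ⟨x⟩ hne
    rw [(E S n).map_coord_zero ⟨0, by omega⟩ (by rw [h5, map_zero]), smul_zero]

end

end Pool.Agent.Run7.h780.VQ
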