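import Pool.Agent.Run7.h780.VQ.Defs

/-!
# Quotients by subgroups: definitions
-/

set_option autoImplicit false

open CategoryTheory CategoryTheory.Limits AlgebraicGeometry

universe u

namespace Pool.Agent.Run7.h780.VQ

open Run7.h220.ZC

variable {k : Type u} [Field k] {r : ℕ}

/-- The characters `χ_T` and `χ_{T'}` agree on the subgroup `H`. -/
def Agree (H : Subgroup (Fin r → ℤˣ)) (T T' : Finset (Fin r)) : Prop :=
  ∀ h ∈ H, chi T h = chi T' h

open Classical in
/-- The image of a zero-cycle on `C₁ × C₂` on the quotient by the subgroup `H` is of degree zero and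
trivial in the Albanese variety: its push-forwards to `C₁` and `C₂`, pushed forward to `C_i / H` and
pulled back to `C_i`, are rationally equivalent to zero. -/
def AlbTrivialBy {C₁ C₂ : Over (Spec (.of k))} (H : Subgroup (Fin r → ℤˣ))
    (ρ₁ : (Fin r → ℤˣ) →* End C₁) (ρ₂ : (Fin r → ℤˣ) →* End C₂) (a : ZeroCycle (C₁ ⨯ C₂)) : Prop :=
  a.sum (fun _ c => c) = 0 ∧
  ∑ h with h ∈ H, push (ρ₁ h : C₁ ⟶ C₁) (push prod.fst a) ∈ ratZero C₁ ∧
  ∑ h with h ∈ H, push (ρ₂ h : C₂ ⟶ C₂) (push prod.snd a) ∈ ratZero C₂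

end Pool.Agent.Run7.h780.VQ
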