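import Pool.Agent.Run7.h780.VQ.MixedAlb
import Pool.Agent.Run7.h780.VQ.SubDefs

/-!
# Voisin's conjecture for quotients of products of curves by subgroups
-/

set_option autoImplicit false

open CategoryTheory CategoryTheory.Limits AlgebraicGeometry

universe u

namespace Pool.Agent.Run7.h780.VQ

open Run7.h220.ZC Run7.h220.Comb

variable {k : Type u} [Field k] {r : ℕ}

section

variable {C₁ C₂ S : Over (Spec (.of k))} (q : C₁ ⨯ C₂ ⟶ S)
  (ρ₁ : (Fin r → ℤˣ) →* End C₁) (ρ₂ : (Fin r → ℤˣ) →* End C₂)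

/-- The alternating sum of more than `γ₁ γ₂` products in the part of two characters is zero. -/
theorem block2 [IsAlgClosed k] [Curve C₁] [Curve C₂] {T₁ T₂ : Finset (Fin r)} {γ₁ γ₂ : ℕ}
    (h₁ : Effective ρ₁ T₁ γ₁) (h₂ : Effective ρ₂ T₂ γ₂) {w₁ : Pt C₁} {w₂ : Pt C₂}
    (hw₁ : e ρ₁ T₁ (Finsupp.single w₁ 1) = 0) (hw₂ : e ρ₂ T₂ (Finsupp.single w₂ 1) = 0)
    {V : Type*} [AddCommGroup V] [Module ℚ V] {m : ℕ} (hm : γ₁ * γ₂ < m)
    {G : MultilinearMap ℚ (fun _ : Fin m => ZeroCycle S) V} (hG₁ : GeoC C₁ G) (hG₂ : GeoC C₂ G)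
    (x : Fin m → Pt C₁) (y : Fin m → Pt C₂) :
    ∑ σ : Equiv.Perm (Fin m), ((Equiv.Perm.sign σ : ℤ) : ℚ) •
      G (fun i => be q (e ρ₁ T₁ (Finsupp.single (x (σ i)) 1))
        (e ρ₂ T₂ (Finsupp.single (y (σ i)) 1))) = 0 := by
  classical
  have hu₁ : ∀ z : Pt C₁, e ρ₁ T₁ (u w₁ z) = e ρ₁ T₁ (Finsupp.single z 1) := by
    intro z
    unfold u
    rw [map_sub, hw₁, sub_zero]
  have hu₂ : ∀ z : Pt C₂, e ρ₂ T₂ (u w₂ z) = e ρ₂ T₂ (Finsupp.single z 1) := by
    intro z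
    unfold u
    rw [map_sub, hw₂, sub_zero]
  refine Pool.Agent.R904.Voi.alt_two hm (fun σ τ => G (fun i =>
    be q (e ρ₁ T₁ (Finsupp.single (x (σ i)) 1)) (e ρ₂ T₂ (Finsupp.single (y (τ i)) 1)))) ?_ ?_
  · intro A hA σ τ
    have h3 := symm_subset (o := w₁) (compat_t (ρ := ρ₁) (T := T₁) hG₁
      (fun i => ((be q).flip (e ρ₂ T₂ (Finsupp.single (y (τ i)) 1))).comp (e ρ₁ T₁))
      (fun i => geo_e_left q ρ₁ T₁ _) (fun i g z hg => by
        simp only [LinearMap.comp_apply]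
        rw [e_inv ρ₁ hg]))
      (fun F hF t => symm_T h₁ hF w₁ t) A hA (fun i => x (σ i)) (fun i => u w₁ (x (σ i)))
    rw [← h3]
    refine Finset.sum_congr rfl fun π _ => ?_
    rw [MultilinearMap.compLinearMap_apply]
    congr 1
    funext i
    simp only [LinearMap.comp_apply, LinearMap.flip_apply]
    by_cases hi : i ∈ A
    · rw [if_pos hi, hu₁]; rfl
    · rw [if_neg hi, hu₁, Equiv.Perm.mul_apply, Equiv.Perm.ofSubtype_apply_of_not_mem _ hi]
  · intro A hA σ τ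
    have h3 := symm_subset (o := w₂) (compat_t (ρ := ρ₂) (T := T₂) hG₂
      (fun i => (be q (e ρ₁ T₁ (Finsupp.single (x (σ i)) 1))).comp (e ρ₂ T₂))
      (fun i => geo_e_right q ρ₂ T₂ _) (fun i g z hg => by
        simp only [LinearMap.comp_apply]
        rw [e_inv ρ₂ hg]))
      (fun F hF t => symm_T h₂ hF w₂ t) A hA (fun i => y (τ i)) (fun i => u w₂ (y (τ i)))
    rw [← h3]
    refine Finset.sum_congr rfl fun π _ => ?_
    rw [MultilinearMap.compLinearMap_apply]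
    congr 1
    funext i
    simp only [LinearMap.comp_apply]
    by_cases hi : i ∈ A
    · rw [if_pos hi, hu₂]; rfl
    · rw [if_neg hi, hu₂, Equiv.Perm.mul_apply, Equiv.Perm.ofSubtype_apply_of_not_mem _ hi]

/-- The part of a pair of characters of the point `s`. -/
noncomputable def bp (p : Finset (Fin r) × Finset (Fin r)) (s : Pt (C₁ ⨯ C₂)) : ZeroCycle S :=
  be q (e ρ₁ p.1 (Finsupp.single (s ≫ prod.fst) 1)) (e ρ₂ p.2 (Finsupp.single (s ≫ prod.snd) 1))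

end

section

variable {C₁ C₂ S : Over (Spec (.of k))} {q : C₁ ⨯ C₂ ⟶ S}
  {ρ₁ : (Fin r → ℤˣ) →* End C₁} {ρ₂ : (Fin r → ℤˣ) →* End C₂}

lemma sum_e {C : Over (Spec (.of k))} (ρ : (Fin r → ℤˣ) →* End C) (D : ZeroCycle C) :
    ∑ T : Finset (Fin r), e ρ T D = (2 : ℚ) ^ r • D := by
  simp only [e_apply]
  rw [Finset.sum_comm]
  simp only [← Finset.sum_smul, sum_chi]
  rw [Finset.sum_eq_single 1]
  · rw [if_pos rfl, map_one]
    congr 1
    exact push_id D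
  · intro g _ hg
    rw [if_neg hg, zero_smul]
  · intro h
    exact absurd (Finset.mem_univ _) h

lemma be_inv1 {g : Fin r → ℤˣ} (hg : prod.map (ρ₁ g : C₁ ⟶ C₁) (ρ₂ g : C₂ ⟶ C₂) ≫ q = q)
    (D : ZeroCycle C₁) (D' : ZeroCycle C₂) :
    be q (push (ρ₁ g : C₁ ⟶ C₁) D) (push (ρ₂ g : C₂ ⟶ C₂) D') = be q D D' := by
  have h : (be q).compl₁₂ (push (ρ₁ g : C₁ ⟶ C₁)) (push (ρ₂ g : C₂ ⟶ C₂)) = be q := by
    refine bilin_ext fun x y => ?_
    rw [LinearMap.compl₁₂_apply, push_single, push_single, be_single, be_single]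
    congr 1
    conv_rhs => rw [← hg, ← Category.assoc, prod.lift_map]
  exact LinearMap.congr_fun₂ h D D'

lemma be_zero {H : Subgroup (Fin r → ℤˣ)}
    (hq : ∀ g ∈ H, prod.map (ρ₁ g : C₁ ⟶ C₁) (ρ₂ g : C₂ ⟶ C₂) ≫ q = q)
    {T₁ T₂ : Finset (Fin r)} (hT : ¬ Agree H T₁ T₂) (D : ZeroCycle C₁) (D' : ZeroCycle C₂) :
    be q (e ρ₁ T₁ D) (e ρ₂ T₂ D') = 0 := by
  unfold Agree at hT
  push Not at hT
  obtain ⟨h, hH, hne⟩ := hT
  have h1 := be_inv1 (hq h hH) (e ρ₁ T₁ D) (e ρ₂ T₂ D')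
  rw [push_e, push_e, map_smul (be q), LinearMap.smul_apply, map_smul, smul_smul] at h1
  have h2 : cq T₁ h * cq T₂ h = -1 := by
    unfold cq
    rcases Int.units_eq_one_or (chi T₁ h) with h3 | h3 <;>
      rcases Int.units_eq_one_or (chi T₂ h) with h4 | h4
    · exact absurd (h3.trans h4.symm) hne
    · rw [h3, h4]; norm_num
    · rw [h3, h4]; norm_num
    · exact absurd (h3.trans h4.symm) hne
  rw [h2, neg_one_smul] at h1
  have h3 : (2 : ℚ) • be q (e ρ₁ T₁ D) (e ρ₂ T₂ D') = 0 := by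
    rw [two_smul]
    nth_rewrite 1 [← h1]
    simp
  exact (smul_eq_zero.1 h3).resolve_left two_ne_zero

lemma lin_sum {X ι M : Type*} [AddCommGroup M] [Module ℚ M] (A : Finset ι) (f : ι → X → M)
    (a : X →₀ ℚ) : lin (fun s => ∑ p ∈ A, f p s) a = ∑ p ∈ A, lin (f p) a := by
  classical
  induction A using Finset.induction with
  | empty =>
    simp only [Finset.sum_empty]
    have := lin_smul 0 (fun _ : X => (0 : M)) a
    simpa using this
  | insert i A hi ih =>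
    rw [Finset.sum_insert hi, ← ih, ← lin_add]
    congr 2
    funext s
    rw [Finset.sum_insert hi]

lemma push_eq_bp (a : ZeroCycle (C₁ ⨯ C₂)) :
    push q a = ((2 : ℚ) ^ r * 2 ^ r)⁻¹ • ∑ p : Finset (Fin r) × Finset (Fin r),
      lin (bp q ρ₁ ρ₂ p) a := by
  have hc : ((2 : ℚ) ^ r * 2 ^ r) ≠ 0 := by positivity
  rw [← lin_sum]
  have h3 : push q = ((2 : ℚ) ^ r * 2 ^ r)⁻¹ •
      lin (fun s => ∑ p : Finset (Fin r) × Finset (Fin r), bp q ρ₁ ρ₂ p s) := by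
    refine Finsupp.lhom_ext fun s c => ?_
    have hs : (Finsupp.single s c : ZeroCycle (C₁ ⨯ C₂)) = c • Finsupp.single s 1 := by simp
    rw [hs, map_smul, map_smul, LinearMap.smul_apply, lin_single, push_single]
    congr 1
    unfold bp
    rw [Fintype.sum_prod_type]
    have h4 : ∀ T₁ : Finset (Fin r), ∑ T₂ : Finset (Fin r),
        be q (e ρ₁ T₁ (Finsupp.single (s ≫ prod.fst) 1))
          (e ρ₂ T₂ (Finsupp.single (s ≫ prod.snd) 1)) =
        be q (e ρ₁ T₁ (Finsupp.single (s ≫ prod.fst) 1))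
          ((2 : ℚ) ^ r • Finsupp.single (s ≫ prod.snd) 1) := by
      intro T₁
      rw [← sum_e ρ₂, map_sum]
    simp only [h4]
    rw [← LinearMap.sum_apply, ← map_sum, sum_e, map_smul (be q), LinearMap.smul_apply, map_smul,
      smul_smul, smul_smul, mul_assoc, inv_mul_cancel₀ hc, one_smul, be_single]
    congr 1
    rw [← prod.comp_lift, prod.lift_fst_snd, Category.comp_id]
  rw [h3, LinearMap.smul_apply]

lemma e_mem {C : Over (Spec (.of k))} {ρ : (Fin r → ℤˣ) →* End C} (T : Finset (Fin r))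
    {D : ZeroCycle C} (hD : D ∈ ratZero C) : e ρ T D ∈ ratZero C := by
  rw [e_apply]
  exact Submodule.sum_mem _ fun g _ => Submodule.smul_mem _ _ (push_mem _ hD)

open Classical in
lemma e_mem_of_sum {C : Over (Spec (.of k))} {ρ : (Fin r → ℤˣ) →* End C}
    {H : Subgroup (Fin r → ℤˣ)} {T : Finset (Fin r)} (hT : Agree H T ∅) {D : ZeroCycle C}
    (hD : ∑ h with h ∈ H, push (ρ h : C ⟶ C) D ∈ ratZero C) : e ρ T D ∈ ratZero C := by
  have h1 := e_mem (ρ := ρ) T hD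
  rw [map_sum] at h1
  have h2 : ∀ h ∈ (Finset.univ.filter fun h : Fin r → ℤˣ => h ∈ H),
      e ρ T (push (ρ h : C ⟶ C) D) = e ρ T D := by
    intro h hh
    have h3 : chi T h = 1 := by
      rw [hT h (Finset.mem_filter.1 hh).2]
      simp [chi]
    rw [e_push]
    simp [cq, h3]
  rw [Finset.sum_congr rfl h2, Finset.sum_const, ← Nat.cast_smul_eq_nsmul ℚ] at h1
  refine (Submodule.smul_mem_iff _ ?_).1 h1
  exact Nat.cast_ne_zero.2 (Finset.card_pos.2
    ⟨1, Finset.mem_filter.2 ⟨Finset.mem_univ _, H.one_mem⟩⟩).ne'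

open Classical in
/-- The indices of the essential parts. -/
noncomputable def Om (H : Subgroup (Fin r → ℤˣ)) : Finset (Finset (Fin r) × Finset (Fin r)) :=
  Finset.univ.filter fun p => p.1 ≠ ∅ ∧ p.2 ≠ ∅ ∧ Agree H p.1 p.2

lemma bp_mem [Curve C₁] [Curve C₂] {H : Subgroup (Fin r → ℤˣ)}
    (hq : ∀ g ∈ H, prod.map (ρ₁ g : C₁ ⟶ C₁) (ρ₂ g : C₂ ⟶ C₂) ≫ q = q)
    (h₁ : Effective ρ₁ ∅ 0) (h₂ : Effective ρ₂ ∅ 0) (o : Pt (C₁ ⨯ C₂))
    {a : ZeroCycle (C₁ ⨯ C₂)} (ha : AlbTrivialBy H ρ₁ ρ₂ a)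
    {p : Finset (Fin r) × Finset (Fin r)} (hp : p ∉ Om H) :
    lin (bp q ρ₁ ρ₂ p) a ∈ ratZero S := by
  classical
  obtain ⟨T₁, T₂⟩ := p
  by_cases hA : Agree H T₁ T₂
  · have hT : T₁ = ∅ ∨ T₂ = ∅ := by
      by_contra hcon
      push Not at hcon
      exact hp (Finset.mem_filter.2 ⟨Finset.mem_univ _, hcon.1.ne_empty, hcon.2.ne_empty, hA⟩)
    rcases hT with rfl | rfl
    · -- the first character is trivial
      have hA' : Agree H T₂ ∅ := fun h hh => (hA h hh).symm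
      have h3 : lin (bp q ρ₁ ρ₂ (∅, T₂)) a =
          lin (fun s => bp q ρ₁ ρ₂ (∅, T₂) s - (be q (e ρ₁ ∅ (Finsupp.single (o ≫ prod.fst) 1))).comp
            (e ρ₂ T₂) (Finsupp.single (s ≫ prod.snd) 1)) a +
          be q (e ρ₁ ∅ (Finsupp.single (o ≫ prod.fst) 1)) (e ρ₂ T₂ (push prod.snd a)) := by
        rw [lin_sub, lin_comp_push, LinearMap.comp_apply, sub_add_cancel]
      rw [h3]
      refine Submodule.add_mem _ ?_ (be_mem_right (e_mem_of_sum hA' ha.2.2) _)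
      rw [lin, Finsupp.linearCombination_apply]
      refine Submodule.sum_mem _ fun s _ => Submodule.smul_mem _ _ ?_
      have h4 : bp q ρ₁ ρ₂ (∅, T₂) s - (be q (e ρ₁ ∅ (Finsupp.single (o ≫ prod.fst) 1))).comp
            (e ρ₂ T₂) (Finsupp.single (s ≫ prod.snd) 1) =
          be q (e ρ₁ ∅ (Finsupp.single (s ≫ prod.fst) 1) -
            e ρ₁ ∅ (Finsupp.single (o ≫ prod.fst) 1))
            (e ρ₂ T₂ (Finsupp.single (s ≫ prod.snd) 1)) := by
        unfold bp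
        rw [map_sub (be q), LinearMap.sub_apply, LinearMap.comp_apply]
      rw [h4]
      exact be_mem_left (orbit_mem h₁ _ _) _
    · -- the second character is trivial
      have h3 : lin (bp q ρ₁ ρ₂ (T₁, ∅)) a =
          lin (fun s => bp q ρ₁ ρ₂ (T₁, ∅) s -
            ((be q).flip (e ρ₂ ∅ (Finsupp.single (o ≫ prod.snd) 1))).comp
            (e ρ₁ T₁) (Finsupp.single (s ≫ prod.fst) 1)) a +
          be q (e ρ₁ T₁ (push prod.fst a)) (e ρ₂ ∅ (Finsupp.single (o ≫ prod.snd) 1)) := by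
        rw [lin_sub, lin_comp_push, LinearMap.comp_apply, LinearMap.flip_apply, sub_add_cancel]
      rw [h3]
      refine Submodule.add_mem _ ?_ (be_mem_left (e_mem_of_sum hA ha.2.1) _)
      rw [lin, Finsupp.linearCombination_apply]
      refine Submodule.sum_mem _ fun s _ => Submodule.smul_mem _ _ ?_
      have h4 : bp q ρ₁ ρ₂ (T₁, ∅) s -
            ((be q).flip (e ρ₂ ∅ (Finsupp.single (o ≫ prod.snd) 1))).comp
            (e ρ₁ T₁) (Finsupp.single (s ≫ prod.fst) 1) =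
          be q (e ρ₁ T₁ (Finsupp.single (s ≫ prod.fst) 1))
            (e ρ₂ ∅ (Finsupp.single (s ≫ prod.snd) 1) -
              e ρ₂ ∅ (Finsupp.single (o ≫ prod.snd) 1)) := by
        unfold bp
        rw [map_sub, LinearMap.comp_apply, LinearMap.flip_apply]
      rw [h4]
      exact be_mem_right (orbit_mem h₂ _ _) _
  · have h3 : bp q ρ₁ ρ₂ (T₁, T₂) = fun _ => 0 := by
      funext s
      exact be_zero hq hA _ _
    rw [h3, lin_const, smul_zero]
    exact Submodule.zero_mem _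

lemma sub_lin_bp [Curve C₁] [Curve C₂] {H : Subgroup (Fin r → ℤˣ)}
    (hq : ∀ g ∈ H, prod.map (ρ₁ g : C₁ ⟶ C₁) (ρ₂ g : C₂ ⟶ C₂) ≫ q = q)
    (h₁ : Effective ρ₁ ∅ 0) (h₂ : Effective ρ₂ ∅ 0) (o : Pt (C₁ ⨯ C₂))
    {a : ZeroCycle (C₁ ⨯ C₂)} (ha : AlbTrivialBy H ρ₁ ρ₂ a) :
    push q a - ((2 : ℚ) ^ r * 2 ^ r)⁻¹ •
      lin (fun s => ∑ p ∈ Om H, bp q ρ₁ ρ₂ p s) a ∈ ratZero S := by
  classical
  rw [push_eq_bp (ρ₁ := ρ₁) (ρ₂ := ρ₂), lin_sum, ← smul_sub]
  refine Submodule.smul_mem _ _ ?_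
  rw [← Finset.sum_sdiff (Finset.subset_univ (Om H)), add_sub_cancel_right]
  exact Submodule.sum_mem _ fun p hp => bp_mem hq h₁ h₂ o ha (Finset.mem_sdiff.1 hp).2

/-- If `C / G` is rational, the orbits of the zero-cycles of degree zero are rationally equivalent to
zero. -/
lemma e_empty_mem {X C : Over (Spec (.of k))} [Curve C] {ρ : (Fin r → ℤˣ) →* End C}
    (h : Effective ρ ∅ 0) (f : X ⟶ C) {a : ZeroCycle X} (ha : a.sum (fun _ c => c) = 0) :
    e ρ ∅ (push f a) ∈ ratZero C := by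
  by_cases hne : Nonempty (Pt C)
  · obtain ⟨o⟩ := hne
    have h5 : e ρ ∅ (push f a) = lin (fun s =>
        e ρ ∅ (Finsupp.single (s ≫ f) 1) - e ρ ∅ (Finsupp.single o 1)) a := by
      rw [lin_sub, lin_comp_push, lin_const, ha, zero_smul, sub_zero]
    rw [h5, lin, Finsupp.linearCombination_apply]
    exact Submodule.sum_mem _ fun s _ => Submodule.smul_mem _ _ (orbit_mem h _ _)
  · have h5 : a = 0 := by
      ext x
      exact absurd ⟨x ≫ f⟩ hne
    rw [h5]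
    simp

/-- If the quotients are rational, all the zero-cycles of degree zero are Albanese-trivial. -/
lemma albTrivialBy_top [Curve C₁] [Curve C₂] (h₁ : Effective ρ₁ ∅ 0) (h₂ : Effective ρ₂ ∅ 0)
    {a : ZeroCycle (C₁ ⨯ C₂)} (ha : a.sum (fun _ c => c) = 0) : AlbTrivialBy ⊤ ρ₁ ρ₂ a := by
  refine ⟨ha, ?_, ?_⟩
  · have h3 := e_empty_mem h₁ prod.fst ha
    rw [e_apply] at h3
    simpa [cq, chi] using h3
  · have h3 := e_empty_mem h₂ prod.snd ha
    rw [e_apply] at h3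
    simpa [cq, chi] using h3

open Classical in
lemma lt_Om {H : Subgroup (Fin r → ℤˣ)} {γ₁ γ₂ : Finset (Fin r) → ℕ} {n : ℕ}
    (hn : ∑ p : Finset (Fin r) × Finset (Fin r) with Agree H p.1 p.2, γ₁ p.1 * γ₂ p.2 < n) :
    ∑ p ∈ Om H, γ₁ p.1 * γ₂ p.2 < n := by
  refine lt_of_le_of_lt (Finset.sum_le_sum_of_subset ?_) hn
  intro p hp
  exact Finset.mem_filter.2 ⟨Finset.mem_univ _, (Finset.mem_filter.1 hp).2.2.2⟩

/-- **Voisin's conjecture for quotients of products of curves by subgroups.** -/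
theorem voisin_sub [IsAlgClosed k] [Curve C₁] [Curve C₂] {H : Subgroup (Fin r → ℤˣ)}
    (hq : ∀ g ∈ H, prod.map (ρ₁ g : C₁ ⟶ C₁) (ρ₂ g : C₂ ⟶ C₂) ≫ q = q)
    (γ₁ γ₂ : Finset (Fin r) → ℕ)
    (h₁ : ∀ T, Effective ρ₁ T (γ₁ T)) (h₂ : ∀ T, Effective ρ₂ T (γ₂ T))
    (z₁ : γ₁ ∅ = 0) (z₂ : γ₂ ∅ = 0)
    (w₁ : ∀ T, T.Nonempty → Ramified ρ₁ T) (w₂ : ∀ T, T.Nonempty → Ramified ρ₂ T)
    {n : ℕ} (hn : ∑ p ∈ Om H, γ₁ p.1 * γ₂ p.2 < n)
    (a : Fin n → ZeroCycle (C₁ ⨯ C₂)) (ha : ∀ i, AlbTrivialBy H ρ₁ ρ₂ (a i)) :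
    ∑ σ : Equiv.Perm (Fin n), ((Equiv.Perm.sign σ : ℤ) : ℚ) • ext (fun i => push q (a (σ i))) ∈
      ratZero (∏ᶜ fun _ : Fin n => S) := by
  classical
  rw [← cls_eq_zero, map_sum]
  simp only [map_smul, ← E_eq]
  by_cases hne : Nonempty (Pt (C₁ ⨯ C₂))
  · obtain ⟨o⟩ := hne
    set c : ℚ := ((2 : ℚ) ^ r * 2 ^ r)⁻¹ with hc
    set W : Pt (C₁ ⨯ C₂) → ZeroCycle S := fun s => ∑ p ∈ Om H, bp q ρ₁ ρ₂ p s with hW
    have e1 : ∀ σ : Equiv.Perm (Fin n), E S n (fun i => push q (a (σ i))) =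
        E S n (fun i => c • lin W (a (σ i))) := fun σ =>
      (compat_E _ n).congr fun i => sub_lin_bp hq (z₁ ▸ h₁ ∅) (z₂ ▸ h₂ ∅) o (ha _)
    simp only [e1]
    have hT : (Alt S n).compLinearMap (fun _ => c • lin W) = 0 := by
      refine mext_unique fun s => ?_
      rw [MultilinearMap.compLinearMap_apply, _root_.zero_apply]
      simp only [LinearMap.smul_apply, lin_single]
      rw [MultilinearMap.map_smul_univ (Alt S n) (fun _ => c) (fun i => W (s i)), hW,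
        MultilinearMap.map_sum_finset]
      refine smul_eq_zero_of_right _ (Finset.sum_eq_zero fun t ht => ?_)
      rw [Fintype.mem_piFinset] at ht
      obtain ⟨p, hp, hlt⟩ : ∃ p ∈ Om H,
          γ₁ p.1 * γ₂ p.2 < (Finset.univ.filter fun i => t i = p).card := by
        by_contra hcon
        push Not at hcon
        have h3 := Finset.card_eq_sum_card_fiberwise (s := (Finset.univ : Finset (Fin n)))
          (f := t) (t := Om H) (fun i _ => ht i)
        rw [Finset.card_univ, Fintype.card_fin] at h3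
        have h4 := Finset.sum_le_sum hcon
        omega
      have hp' := Finset.mem_filter.1 hp
      obtain ⟨v₁, g₁, hg₁, hv₁⟩ := w₁ p.1 (Finset.nonempty_iff_ne_empty.2 hp'.2.1)
      obtain ⟨v₂, g₂, hg₂, hv₂⟩ := w₂ p.2 (Finset.nonempty_iff_ne_empty.2 hp'.2.2.1)
      let ι : Fin (Finset.univ.filter fun i => t i = p).card ↪ Fin n :=
        ((Finset.univ.filter fun i => t i = p).orderEmbOfFin rfl).toEmbedding
      have hι : ∀ i, t (ι i) = p := fun i =>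
        (Finset.mem_filter.1 ((Finset.univ.filter fun i => t i = p).orderEmbOfFin_mem rfl i)).2
      refine alt_zero_of ι _ fun ψ b' => ?_
      have hG₁ := geoC_plug (geoC_E (C := C₁) (S := S) n) ψ b'
      have hG₂ := geoC_plug (geoC_E (C := C₂) (S := S) n) ψ b'
      have hB := block2 q ρ₁ ρ₂ (h₁ p.1) (h₂ p.2) (e_ramified ρ₁ hg₁ hv₁) (e_ramified ρ₂ hg₂ hv₂)
        hlt hG₁ hG₂ (fun i => s (ι i) ≫ prod.fst) (fun i => s (ι i) ≫ prod.snd)
      rw [← hB]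
      refine Finset.sum_congr rfl fun π _ => ?_
      congr 2
      funext i
      rw [hι]
      rfl
    have h4 : ((Alt S n).compLinearMap (fun _ => c • lin W)) a = 0 := by
      rw [hT, _root_.zero_apply]
    rw [MultilinearMap.compLinearMap_apply, Alt_apply] at h4
    rw [← h4]
    rfl
  · refine Finset.sum_eq_zero fun σ _ => ?_
    have h5 : a (σ ⟨0, by omega⟩) = 0 := by
      ext x
      exact absurd ⟨x⟩ hne
    rw [(E S n).map_coord_zero ⟨0, by omega⟩ (by rw [h5, map_zero]), smul_zero]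

end

end Pool.Agent.Run7.h780.VQ
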