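import Pool.Agent.Run7.h780.VQ.Defs

/-!
# Mixed quotients of squares of curves: definitions
-/

set_option autoImplicit false

open CategoryTheory CategoryTheory.Limits AlgebraicGeometry

universe u

namespace Pool.Agent.Run7.h780.VQ

open Run7.h220.ZC

variable {k : Type u} [Field k] {r : ℕ}

/-- The character `(g, h) ↦ χ_T(g) χ_{T'}(h)` of the group `G × G` is trivial on the subgroup `H`. -/
def AgreeW (H : Subgroup ((Fin r → ℤˣ) × (Fin r → ℤˣ))) (T T' : Finset (Fin r)) : Prop :=
  ∀ h ∈ H, chi T h.1 = chi T' h.2

open Classical in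
/-- The image of a zero-cycle on `C × C` on the mixed quotient is of degree zero and trivial in the
Albanese variety: the sum of its push-forwards to `C`, pushed forward to the quotient of `C` by the
projection of `H` and pulled back to `C`, is rationally equivalent to zero. -/
def AlbTrivialW {C : Over (Spec (.of k))} (H : Subgroup ((Fin r → ℤˣ) × (Fin r → ℤˣ)))
    (ρ : (Fin r → ℤˣ) →* End C) (a : ZeroCycle (C ⨯ C)) : Prop :=
  a.sum (fun _ c => c) = 0 ∧
  ∑ h with h ∈ H, push (ρ h.2 : C ⟶ C) (push prod.fst a + push prod.snd a) ∈ ratZero C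

end Pool.Agent.Run7.h780.VQ
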