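import Pool.Agent.Run7.h780.VQ.Sub
import Pool.Agent.Run7.h780.VQ.WrDefs

/-!
# Voisin's conjecture for mixed quotients of squares of curves by subgroups
-/

set_option autoImplicit false

open CategoryTheory CategoryTheory.Limits AlgebraicGeometry

universe u

namespace Pool.Agent.Run7.h780.VQ

open Run7.h220.ZC Run7.h220.Comb

variable {k : Type u} [Field k] {r : ℕ}

section

variable {C₁ C₂ S : Over (Spec (.of k))} (q : C₁ ⨯ C₂ ⟶ S)
  (ρ₁ : (Fin r → ℤˣ) →* End C₁) (ρ₂ : (Fin r → ℤˣ) →* End C₂)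

/-- The alternating sum of more than `γ₁ γ₂` products in the part of two characters is zero. -/
theorem block2u [IsAlgClosed k] [Curve C₁] [Curve C₂] {T₁ T₂ : Finset (Fin r)} {γ₁ γ₂ : ℕ}
    (h₁ : Effective ρ₁ T₁ γ₁) (h₂ : Effective ρ₂ T₂ γ₂) (w₁ : Pt C₁) (w₂ : Pt C₂)
    {V : Type*} [AddCommGroup V] [Module ℚ V] {m : ℕ} (hm : γ₁ * γ₂ < m)
    {G : MultilinearMap ℚ (fun _ : Fin m => ZeroCycle S) V} (hG₁ : GeoC C₁ G) (hG₂ : GeoC C₂ G)
    (x : Fin m → Pt C₁) (y : Fin m → Pt C₂) :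
    ∑ σ : Equiv.Perm (Fin m), ((Equiv.Perm.sign σ : ℤ) : ℚ) •
      G (fun i => be q (e ρ₁ T₁ (u w₁ (x (σ i)))) (e ρ₂ T₂ (u w₂ (y (σ i))))) = 0 := by
  classical
  refine Pool.Agent.R904.Voi.alt_two hm (fun σ τ => G (fun i =>
    be q (e ρ₁ T₁ (u w₁ (x (σ i)))) (e ρ₂ T₂ (u w₂ (y (τ i)))))) ?_ ?_
  · intro A hA σ τ
    have h3 := symm_subset (o := w₁) (compat_t (ρ := ρ₁) (T := T₁) hG₁
      (fun i => ((be q).flip (e ρ₂ T₂ (u w₂ (y (τ i))))).comp (e ρ₁ T₁))
      (fun i => geo_e_left q ρ₁ T₁ _) (fun i g z hg => by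
        simp only [LinearMap.comp_apply]
        rw [e_inv ρ₁ hg]))
      (fun F hF t => symm_T h₁ hF w₁ t) A hA (fun i => x (σ i)) (fun i => u w₁ (x (σ i)))
    rw [← h3]
    refine Finset.sum_congr rfl fun π _ => ?_
    rw [MultilinearMap.compLinearMap_apply]
    congr 1
    funext i
    simp only [LinearMap.comp_apply, LinearMap.flip_apply]
    by_cases hi : i ∈ A
    · rw [if_pos hi]; rfl
    · rw [if_neg hi, Equiv.Perm.mul_apply, Equiv.Perm.ofSubtype_apply_of_not_mem _ hi]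
  · intro A hA σ τ
    have h3 := symm_subset (o := w₂) (compat_t (ρ := ρ₂) (T := T₂) hG₂
      (fun i => (be q (e ρ₁ T₁ (u w₁ (x (σ i))))).comp (e ρ₂ T₂))
      (fun i => geo_e_right q ρ₂ T₂ _) (fun i g z hg => by
        simp only [LinearMap.comp_apply]
        rw [e_inv ρ₂ hg]))
      (fun F hF t => symm_T h₂ hF w₂ t) A hA (fun i => y (τ i)) (fun i => u w₂ (y (τ i)))
    rw [← h3]
    refine Finset.sum_congr rfl fun π _ => ?_
    rw [MultilinearMap.compLinearMap_apply]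
    congr 1
    funext i
    simp only [LinearMap.comp_apply]
    by_cases hi : i ∈ A
    · rw [if_pos hi]; rfl
    · rw [if_neg hi, Equiv.Perm.mul_apply, Equiv.Perm.ofSubtype_apply_of_not_mem _ hi]

lemma be_inv2 {f₁ : C₁ ⟶ C₁} {f₂ : C₂ ⟶ C₂} (hf : prod.map f₁ f₂ ≫ q = q)
    (D : ZeroCycle C₁) (D' : ZeroCycle C₂) : be q (push f₁ D) (push f₂ D') = be q D D' := by
  have h : (be q).compl₁₂ (push f₁) (push f₂) = be q := by
    refine bilin_ext fun x y => ?_
    rw [LinearMap.compl₁₂_apply, push_single, push_single, be_single, be_single]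
    congr 1
    conv_rhs => rw [← hf, ← Category.assoc, prod.lift_map]
  exact LinearMap.congr_fun₂ h D D'

end

section

variable {C S : Over (Spec (.of k))} {q : C ⨯ C ⟶ S} {ρ : (Fin r → ℤˣ) →* End C}
  {H : Subgroup ((Fin r → ℤˣ) × (Fin r → ℤˣ))} {g₀ : Fin r → ℤˣ}

lemma be_zeroW (hq : ∀ g ∈ H, prod.map (ρ g.1 : C ⟶ C) (ρ g.2 : C ⟶ C) ≫ q = q)
    {T₁ T₂ : Finset (Fin r)} (hT : ¬ AgreeW H T₁ T₂) (D D' : ZeroCycle C) :
    be q (e ρ T₁ D) (e ρ T₂ D') = 0 := by
  unfold AgreeW at hT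
  push Not at hT
  obtain ⟨h, hH, hne⟩ := hT
  have h1 := be_inv2 q (hq h hH) (e ρ T₁ D) (e ρ T₂ D')
  rw [push_e, push_e, map_smul (be q), LinearMap.smul_apply, map_smul, smul_smul] at h1
  have h2 : cq T₁ h.1 * cq T₂ h.2 = -1 := by
    unfold cq
    rcases Int.units_eq_one_or (chi T₁ h.1) with h3 | h3 <;>
      rcases Int.units_eq_one_or (chi T₂ h.2) with h4 | h4
    · exact absurd (h3.trans h4.symm) hne
    · rw [h3, h4]; norm_num
    · rw [h3, h4]; norm_num
    · exact absurd (h3.trans h4.symm) hne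
  rw [h2, neg_one_smul] at h1
  have h3 : (2 : ℚ) • be q (e ρ T₁ D) (e ρ T₂ D') = 0 := by
    rw [two_smul]
    nth_rewrite 1 [← h1]
    simp
  exact (smul_eq_zero.1 h3).resolve_left two_ne_zero

/-- The part of a pair of characters of the point `s`, with respect to the base points `w`. -/
noncomputable def bw (q : C ⨯ C ⟶ S) (ρ : (Fin r → ℤˣ) →* End C) (w : Finset (Fin r) → Pt C)
    (p : Finset (Fin r) × Finset (Fin r)) (s : Pt (C ⨯ C)) : ZeroCycle S :=
  be q (e ρ p.1 (u (w p.1) (s ≫ prod.fst))) (e ρ p.2 (u (w p.2) (s ≫ prod.snd)))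

/-- Twice the contribution of the pair of characters to the bound. -/
def fw (g₀ : Fin r → ℤˣ) (γ : Finset (Fin r) → ℕ) (p : Finset (Fin r) × Finset (Fin r)) : ℕ :=
  if p.1 = p.2 then 2 * bd (γ p.1) (chi p.1 g₀) else γ p.1 * γ p.2

open Classical in
/-- The indices. -/
noncomputable def Ow (H : Subgroup ((Fin r → ℤˣ) × (Fin r → ℤˣ))) :
    Finset (Finset (Fin r) × Finset (Fin r)) :=
  Finset.univ.filter fun p => AgreeW H p.1 p.2

lemma mem_Ow {p : Finset (Fin r) × Finset (Fin r)} : p ∈ Ow H ↔ AgreeW H p.1 p.2 := by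
  classical
  exact ⟨fun h => (Finset.mem_filter.1 h).2, fun h => Finset.mem_filter.2 ⟨Finset.mem_univ _, h⟩⟩

lemma swap_mem (hH : ∀ h ∈ H, h.swap ∈ H) {p : Finset (Fin r) × Finset (Fin r)} (hp : p ∈ Ow H) :
    p.swap ∈ Ow H := by
  rw [mem_Ow] at hp ⊢
  exact fun h hh => (hp h.swap (hH h hh)).symm

lemma alt_W [IsAlgClosed k] [Curve C] (hH : ∀ h ∈ H, h.swap ∈ H)
    (hs : prod.lift prod.snd (prod.fst ≫ (ρ g₀ : C ⟶ C)) ≫ q = q)
    (γ : Finset (Fin r) → ℕ) (hγ : ∀ T, Effective ρ T (γ T)) (w : Finset (Fin r) → Pt C)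
    {n : ℕ} (hn : ∑ p ∈ Ow H, fw g₀ γ p < 2 * n)
    (s : Fin n → Pt (C ⨯ C)) (t : Fin n → Finset (Fin r) × Finset (Fin r))
    (ht : ∀ i, t i ∈ Ow H) :
    Alt S n (fun i => bw q ρ w (t i) (s i)) = 0 := by
  classical
  obtain ⟨p, -, hlt⟩ := pigeon (ν := Prod.swap) (fun p => Prod.swap_swap p) (Ω := Ow H)
    (fun p hp => swap_mem hH hp) (fw g₀ γ) hn t ht
  by_cases hp : p.1 = p.2
  · have hsw : p.swap = p := Prod.ext hp.symm hp
    unfold fw at hlt
    rw [if_pos hp, hsw] at hlt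
    have hlt' : bd (γ p.1) (chi p.1 g₀) < (Finset.univ.filter fun i => t i = p).card := by omega
    let ι : Fin (Finset.univ.filter fun i => t i = p).card ↪ Fin n :=
      ((Finset.univ.filter fun i => t i = p).orderEmbOfFin rfl).toEmbedding
    have hι : ∀ i, t (ι i) = p := fun i =>
      (Finset.mem_filter.1 ((Finset.univ.filter fun i => t i = p).orderEmbOfFin_mem rfl i)).2
    refine alt_zero_of ι _ fun ψ b' => ?_
    have hG := geoC_plug (geoC_E (C := C) (S := S) n) ψ b'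
    have hB := block_mixed_u q ρ (hγ p.1) (w p.1) (chi p.1 g₀)
      (fun D D' => be_e_swap hs p.1 p.1 D D') hlt' hG
      (fun j => if j.2 then s (ι j.1) ≫ prod.snd else s (ι j.1) ≫ prod.fst)
    rw [← hB]
    refine Finset.sum_congr rfl fun π _ => ?_
    congr 2
    funext i
    unfold bw
    rw [hι, ← hp]
    rfl
  · unfold fw at hlt
    rw [if_neg hp] at hlt
    have hcard : (Finset.univ.filter fun i => t i = p).card +
        (Finset.univ.filter fun i => t i = p.swap).card =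
        (Finset.univ.filter fun i => t i = p ∨ t i = p.swap).card := by
      rw [Finset.filter_or, Finset.card_union_of_disjoint]
      refine Finset.disjoint_filter.2 fun i _ h1 h2 => hp ?_
      rw [h1] at h2
      exact congrArg Prod.fst h2
    rw [hcard] at hlt
    let ι : Fin (Finset.univ.filter fun i => t i = p ∨ t i = p.swap).card ↪ Fin n :=
      ((Finset.univ.filter fun i => t i = p ∨ t i = p.swap).orderEmbOfFin rfl).toEmbedding
    have hι : ∀ i, t (ι i) = p ∨ t (ι i) = p.swap := fun i =>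
      (Finset.mem_filter.1
        ((Finset.univ.filter fun i => t i = p ∨ t i = p.swap).orderEmbOfFin_mem rfl i)).2
    have hch : ∀ j, ∃ (c : ℚ) (X Y : Pt C), bw q ρ w (t (ι j)) (s (ι j)) =
        c • be q (e ρ p.1 (u (w p.1) X)) (e ρ p.2 (u (w p.2) Y)) := by
      intro j
      rcases hι j with h | h
      · refine ⟨1, s (ι j) ≫ prod.fst, s (ι j) ≫ prod.snd, ?_⟩
        rw [one_smul, h]
        rfl
      · refine ⟨cq p.2 g₀, s (ι j) ≫ prod.snd, s (ι j) ≫ prod.fst, ?_⟩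
        rw [h]
        exact be_e_swap hs p.2 p.1 _ _
    choose c X Y hXY using hch
    refine alt_zero_of ι _ fun ψ b' => ?_
    have hG := geoC_plug (geoC_E (C := C) (S := S) n) ψ b'
    have hB := block2u q ρ ρ (hγ p.1) (hγ p.2) (w p.1) (w p.2) hlt hG hG X Y
    have e1 : ∀ π : Equiv.Perm (Fin (Finset.univ.filter fun i => t i = p ∨ t i = p.swap).card),
        plug (E S n) ψ b' (fun i => bw q ρ w (t (ι (π i))) (s (ι (π i)))) = (∏ j, c j) •
          plug (E S n) ψ b' (fun i => be q (e ρ p.1 (u (w p.1) (X (π i))))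
            (e ρ p.2 (u (w p.2) (Y (π i))))) := by
      intro π
      rw [← Equiv.prod_comp π c, ← MultilinearMap.map_smul_univ]
      congr 1
      funext i
      exact hXY (π i)
    simp only [e1]
    simp only [smul_comm _ (∏ j, c j)]
    rw [← Finset.smul_sum]
    exact smul_eq_zero_of_right _ hB

end

end Pool.Agent.Run7.h780.VQ
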