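import Pool.Agent.Run7.h780.VQ.Wr

/-!
# Voisin's conjecture for mixed quotients of squares of curves by subgroups: the assembly
-/

set_option autoImplicit false

open CategoryTheory CategoryTheory.Limits AlgebraicGeometry

universe u

namespace Pool.Agent.Run7.h780.VQ

open Run7.h220.ZC Run7.h220.Comb

variable {k : Type u} [Field k] {r : ℕ}

section

variable {C S : Over (Spec (.of k))} {q : C ⨯ C ⟶ S} {ρ : (Fin r → ℤˣ) →* End C}
  {H : Subgroup ((Fin r → ℤˣ) × (Fin r → ℤˣ))} {g₀ : Fin r → ℤˣ}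

open Classical in
lemma e_mem_of_sumW {T : Finset (Fin r)} (hT : AgreeW H ∅ T) {D : ZeroCycle C}
    (hD : ∑ h with h ∈ H, push (ρ h.2 : C ⟶ C) D ∈ ratZero C) : e ρ T D ∈ ratZero C := by
  have h1 := e_mem (ρ := ρ) T hD
  rw [map_sum] at h1
  have h2 : ∀ h ∈ (Finset.univ.filter fun h : (Fin r → ℤˣ) × (Fin r → ℤˣ) => h ∈ H),
      e ρ T (push (ρ h.2 : C ⟶ C) D) = e ρ T D := by
    intro h hh
    have h3 : chi T h.2 = 1 := by
      rw [← hT h (Finset.mem_filter.1 hh).2]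
      simp [chi]
    rw [e_push]
    simp [cq, h3]
  rw [Finset.sum_congr rfl h2, Finset.sum_const, ← Nat.cast_smul_eq_nsmul ℚ] at h1
  refine (Submodule.smul_mem_iff _ ?_).1 h1
  exact Nat.cast_ne_zero.2 (Finset.card_pos.2
    ⟨1, Finset.mem_filter.2 ⟨Finset.mem_univ _, H.one_mem⟩⟩).ne'

/-- An Albanese-trivial zero-cycle on the mixed quotient. -/
lemma sub_lin_bw (hH : ∀ h ∈ H, h.swap ∈ H)
    (hq : ∀ g ∈ H, prod.map (ρ g.1 : C ⟶ C) (ρ g.2 : C ⟶ C) ≫ q = q)
    (hs : prod.lift prod.snd (prod.fst ≫ (ρ g₀ : C ⟶ C)) ≫ q = q)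
    {w : Finset (Fin r) → Pt C} (hw : ∀ T, T ≠ ∅ → e ρ T (Finsupp.single (w T) 1) = 0)
    {a : ZeroCycle (C ⨯ C)} (ha : AlbTrivialW H ρ a) :
    push q a - ((2 : ℚ) ^ r * 2 ^ r)⁻¹ • lin (fun s => ∑ p ∈ Ow H, bw q ρ w p s) a ∈
      ratZero S := by
  classical
  rw [push_eq_bp (ρ₁ := ρ) (ρ₂ := ρ), lin_sum, ← smul_sub]
  refine Submodule.smul_mem _ _ ?_
  rw [← Finset.sum_sdiff (Finset.subset_univ (Ow H))]
  have e0 : ∑ p ∈ Finset.univ \ Ow H, lin (bp q ρ ρ p) a = 0 := by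
    refine Finset.sum_eq_zero fun p hp => ?_
    have hp' : ¬ AgreeW H p.1 p.2 := fun h => (Finset.mem_sdiff.1 hp).2 (mem_Ow.2 h)
    have h3 : bp q ρ ρ p = fun _ => 0 := by
      funext s
      exact be_zeroW hq hp' _ _
    rw [h3, lin_const, smul_zero]
  rw [e0, zero_add, ← Finset.sum_sub_distrib]
  have e1 : ∀ p ∈ Ow H, lin (bp q ρ ρ p) a - lin (bw q ρ w p) a =
      be q (e ρ p.1 (push prod.fst a)) (e ρ p.2 (Finsupp.single (w p.2) 1)) +
      be q (e ρ p.1 (Finsupp.single (w p.1) 1)) (e ρ p.2 (push prod.snd a)) := by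
    intro p _
    rw [← lin_sub]
    have h3 : (fun s => bp q ρ ρ p s - bw q ρ w p s) = fun s =>
        (((be q).flip (e ρ p.2 (Finsupp.single (w p.2) 1))).comp (e ρ p.1))
          (Finsupp.single (s ≫ prod.fst) 1) +
        ((be q (e ρ p.1 (Finsupp.single (w p.1) 1))).comp (e ρ p.2))
          (Finsupp.single (s ≫ prod.snd) 1) -
        be q (e ρ p.1 (Finsupp.single (w p.1) 1)) (e ρ p.2 (Finsupp.single (w p.2) 1)) := by
      funext s
      unfold bp bw u
      simp only [map_sub, LinearMap.sub_apply, LinearMap.comp_apply, LinearMap.flip_apply]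
      abel
    rw [h3, lin_sub, lin_add, lin_comp_push, lin_comp_push, lin_const, ha.1, zero_smul, sub_zero]
    rfl
  rw [Finset.sum_congr rfl e1, Finset.sum_add_distrib]
  have e2 : ∑ p ∈ Ow H, be q (e ρ p.1 (push prod.fst a)) (e ρ p.2 (Finsupp.single (w p.2) 1)) =
      ∑ p ∈ Ow H, be q (e ρ p.2 (push prod.fst a)) (e ρ p.1 (Finsupp.single (w p.1) 1)) :=
    Finset.sum_nbij' Prod.swap Prod.swap (fun p hp => swap_mem hH hp)
      (fun p hp => swap_mem hH hp) (fun p _ => Prod.swap_swap p) (fun p _ => Prod.swap_swap p)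
      (fun p _ => rfl)
  rw [e2, ← Finset.sum_add_distrib]
  refine Submodule.sum_mem _ fun p hp => ?_
  by_cases hp1 : p.1 = ∅
  · have h5 := be_e_swap hs p.1 p.2 (Finsupp.single (w p.1) 1) (push prod.fst a)
    rw [hp1, cq_empty, one_smul] at h5
    rw [hp1, ← h5, ← map_add, ← map_add]
    refine be_mem_right (e_mem_of_sumW ?_ ha.2) _
    have h6 := mem_Ow.1 hp
    rwa [hp1] at h6
  · rw [hw p.1 hp1]
    simp only [map_zero, LinearMap.zero_apply, add_zero]
    exact Submodule.zero_mem _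

/-- **Voisin's conjecture for mixed quotients of squares of curves by subgroups.** -/
theorem voisin_W [IsAlgClosed k] [Curve C] (hH : ∀ h ∈ H, h.swap ∈ H)
    (hq : ∀ g ∈ H, prod.map (ρ g.1 : C ⟶ C) (ρ g.2 : C ⟶ C) ≫ q = q)
    (hs : prod.lift prod.snd (prod.fst ≫ (ρ g₀ : C ⟶ C)) ≫ q = q)
    (γ : Finset (Fin r) → ℕ) (hγ : ∀ T, Effective ρ T (γ T))
    (hw : ∀ T, T.Nonempty → Ramified ρ T)
    {n : ℕ} (hn : ∑ p ∈ Ow H, fw g₀ γ p < 2 * n)
    (a : Fin n → ZeroCycle (C ⨯ C)) (ha : ∀ i, AlbTrivialW H ρ (a i)) :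
    ∑ σ : Equiv.Perm (Fin n), ((Equiv.Perm.sign σ : ℤ) : ℚ) • ext (fun i => push q (a (σ i))) ∈
      ratZero (∏ᶜ fun _ : Fin n => S) := by
  classical
  rw [← cls_eq_zero, map_sum]
  simp only [map_smul, ← E_eq]
  by_cases hne : Nonempty (Pt (C ⨯ C))
  · obtain ⟨o⟩ := hne
    have hz : ∀ T : Finset (Fin r), ∃ w : Pt C, T ≠ ∅ → e ρ T (Finsupp.single w 1) = 0 := by
      intro T
      by_cases hT : T = ∅
      · exact ⟨o ≫ prod.fst, fun h => absurd hT h⟩
      · obtain ⟨v, g, hg, hv⟩ := hw T (Finset.nonempty_iff_ne_empty.2 hT)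
        exact ⟨v, fun _ => e_ramified ρ hg hv⟩
    choose w hw' using hz
    set c : ℚ := ((2 : ℚ) ^ r * 2 ^ r)⁻¹ with hc
    set W : Pt (C ⨯ C) → ZeroCycle S := fun s => ∑ p ∈ Ow H, bw q ρ w p s with hW
    have e1 : ∀ σ : Equiv.Perm (Fin n), E S n (fun i => push q (a (σ i))) =
        E S n (fun i => c • lin W (a (σ i))) := fun σ =>
      (compat_E _ n).congr fun i => sub_lin_bw hH hq hs hw' (ha _)
    simp only [e1]
    have hT : (Alt S n).compLinearMap (fun _ => c • lin W) = 0 := by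
      refine mext_unique fun s => ?_
      rw [MultilinearMap.compLinearMap_apply, _root_.zero_apply]
      simp only [LinearMap.smul_apply, lin_single]
      rw [MultilinearMap.map_smul_univ (Alt S n) (fun _ => c) (fun i => W (s i)), hW,
        MultilinearMap.map_sum_finset]
      refine smul_eq_zero_of_right _ (Finset.sum_eq_zero fun t ht => ?_)
      rw [Fintype.mem_piFinset] at ht
      exact alt_W hH hs γ hγ w hn s t ht
    have h4 : ((Alt S n).compLinearMap (fun _ => c • lin W)) a = 0 := by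
      rw [hT, _root_.zero_apply]
    rw [MultilinearMap.compLinearMap_apply, Alt_apply] at h4
    rw [← h4]
    rfl
  · refine Finset.sum_eq_zero fun σ _ => ?_
    have h5 : a (σ ⟨0, by omega⟩) = 0 := by
      ext x
      exact absurd ⟨x⟩ hne
    rw [(E S n).map_coord_zero ⟨0, by omega⟩ (by rw [h5, map_zero]), smul_zero]

open Classical in
/-- If `C / G` is rational and `H` projects onto `G`, the zero-cycles of degree zero are
Albanese-trivial. -/
lemma albTrivialW_of_surj [Curve C] (h : Effective ρ ∅ 0) (hsur : ∀ g, ∃ h ∈ H, h.2 = g)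
    {a : ZeroCycle (C ⨯ C)} (ha : a.sum (fun _ c => c) = 0) : AlbTrivialW H ρ a := by
  refine ⟨ha, ?_⟩
  set D : ZeroCycle C := push prod.fst a + push prod.snd a with hD
  set N : ZeroCycle C := ∑ h with h ∈ H, push (ρ h.2 : C ⟶ C) D with hN
  have h1 : e ρ ∅ D ∈ ratZero C := by
    rw [hD, map_add]
    exact Submodule.add_mem _ (e_empty_mem h _ ha) (e_empty_mem h _ ha)
  have h2 : ∀ g, push (ρ g : C ⟶ C) N = N := by
    intro g
    obtain ⟨h₀, hh₀, rfl⟩ := hsur g
    rw [hN, map_sum]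
    refine Finset.sum_nbij' (fun x => h₀ * x) (fun x => h₀⁻¹ * x) ?_ ?_ ?_ ?_ ?_
    · intro x hx
      exact Finset.mem_filter.2 ⟨Finset.mem_univ _, H.mul_mem hh₀ (Finset.mem_filter.1 hx).2⟩
    · intro x hx
      exact Finset.mem_filter.2 ⟨Finset.mem_univ _,
        H.mul_mem (H.inv_mem hh₀) (Finset.mem_filter.1 hx).2⟩
    · intro x _
      exact inv_mul_cancel_left _ _
    · intro x _
      exact mul_inv_cancel_left _ _
    · intro x _
      rw [push_push]
      rfl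
  have h3 : e ρ ∅ N = (Fintype.card (Fin r → ℤˣ) : ℚ) • N := by
    rw [e_apply]
    simp only [cq_empty, one_smul, h2]
    rw [Finset.sum_const, Finset.card_univ, Nat.cast_smul_eq_nsmul]
  have h4 : e ρ ∅ N ∈ ratZero C := by
    rw [hN, map_sum]
    refine Submodule.sum_mem _ fun x _ => ?_
    rw [e_push]
    exact Submodule.smul_mem _ _ h1
  rw [h3] at h4
  exact (Submodule.smul_mem_iff _ (Nat.cast_ne_zero.2 Fintype.card_ne_zero)).1 h4

lemma fw_cast (g₀ : Fin r → ℤˣ) (γ : Finset (Fin r) → ℕ) (p : Finset (Fin r) × Finset (Fin r)) :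
    ((fw g₀ γ p : ℕ) : ℤ) = (γ p.1 : ℤ) * γ p.2 -
      if p.1 = p.2 then (chi p.1 g₀ : ℤ) * γ p.1 else 0 := by
  unfold fw
  split_ifs with h
  · rw [← h]
    unfold bd
    split_ifs with hc
    · have h2 := two_mul_choose (γ p.1)
      rw [hc]
      push_cast at h2 ⊢
      linarith
    · have hc2 : chi p.1 g₀ = -1 := (Int.units_eq_one_or _).resolve_left hc
      have h2 := two_mul_choose (γ p.1 + 1)
      rw [hc2]
      push_cast at h2 ⊢
      linarith
  · push_cast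
    ring

open Classical in
lemma lt_of_fw {γ : Finset (Fin r) → ℕ} {n : ℕ}
    (hn : ∑ p : Finset (Fin r) × Finset (Fin r) with AgreeW H p.1 p.2, ((γ p.1 : ℤ) * γ p.2 -
      if p.1 = p.2 then (chi p.1 g₀ : ℤ) * γ p.1 else 0) < 2 * n) :
    ∑ p ∈ Ow H, fw g₀ γ p < 2 * n := by
  have h1 : ((∑ p ∈ Ow H, fw g₀ γ p : ℕ) : ℤ) < 2 * n := by
    push_cast
    refine lt_of_eq_of_lt ?_ hn
    unfold Ow
    refine Finset.sum_congr rfl fun p _ => ?_
    rw [fw_cast]
  exact_mod_cast h1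

end

end Pool.Agent.Run7.h780.VQ
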